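import Pool.Agent.BonT.Defs

/-!
# Bone tilings: counting lemmas
-/

set_option autoImplicit false

namespace Pool.Agent.BonT

theorem bone_ne (c d : ℤ × ℤ × ℤ) : (bone c d).Nonempty := ⟨c, by simp [bone]⟩

theorem tilings_finite {R : Set (ℤ × ℤ × ℤ)} (hR : R.Finite) : {T | IsTiling R T}.Finite := by
  refine (hR.powerset.powerset).subset ?_
  intro T hT s hs
  have h := hT.2.2
  show s ⊆ R
  rw [← h]
  exact Set.subset_sUnion_of_mem hs

theorem one_le_cnt {R : Set (ℤ × ℤ × ℤ)} (hR : R.Finite) {T : Set (Set (ℤ × ℤ × ℤ))}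
    (hT : IsTiling R T) : 1 ≤ cnt R := by
  have : 0 < {T | IsTiling R T}.ncard := (Set.ncard_pos (tilings_finite hR)).2 ⟨T, hT⟩
  exact this

theorem IsTiling.sub {R : Set (ℤ × ℤ × ℤ)} {T : Set (Set (ℤ × ℤ × ℤ))} (h : IsTiling R T)
    {s : Set (ℤ × ℤ × ℤ)} (hs : s ∈ T) : s ⊆ R := by
  rw [← h.2.2]; exact Set.subset_sUnion_of_mem hs

theorem IsTiling.ne {R : Set (ℤ × ℤ × ℤ)} {T : Set (Set (ℤ × ℤ × ℤ))} (h : IsTiling R T)
    {s : Set (ℤ × ℤ × ℤ)} (hs : s ∈ T) : s.Nonempty := by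
  obtain ⟨c, d, -, rfl⟩ := h.1 s hs
  exact bone_ne c d

theorem IsTiling.union {R S : Set (ℤ × ℤ × ℤ)} {T U : Set (Set (ℤ × ℤ × ℤ))}
    (h : IsTiling R T) (g : IsTiling S U) (hd : Disjoint R S) : IsTiling (R ∪ S) (T ∪ U) := by
  refine ⟨?_, ?_, ?_⟩
  · rintro s (hs | hs)
    · exact h.1 s hs
    · exact g.1 s hs
  · rintro s (hs | hs) t (ht | ht) hst
    · exact h.2.1 hs ht hst
    · exact hd.mono (h.sub hs) (g.sub ht)
    · exact (hd.mono (h.sub ht) (g.sub hs)).symm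
    · exact g.2.1 hs ht hst
  · rw [Set.sUnion_union, h.2.2, g.2.2]

theorem IsTiling.filter_eq {R S : Set (ℤ × ℤ × ℤ)} {T U : Set (Set (ℤ × ℤ × ℤ))}
    (h : IsTiling R T) (g : IsTiling S U) (hd : Disjoint R S) :
    {s ∈ T ∪ U | s ⊆ R} = T := by
  ext s
  constructor
  · rintro ⟨hs | hs, hsR⟩
    · exact hs
    · exfalso
      obtain ⟨x, hx⟩ := g.ne hs
      exact Set.disjoint_left.1 hd (hsR hx) (g.sub hs hx)
  · intro hs
    exact ⟨Or.inl hs, h.sub hs⟩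

theorem cnt_union {R S : Set (ℤ × ℤ × ℤ)} (hR : R.Finite) (hS : S.Finite) (hd : Disjoint R S) :
    cnt R * cnt S ≤ cnt (R ∪ S) := by
  unfold cnt
  rw [← Set.ncard_prod]
  refine Set.ncard_le_ncard_of_injOn (fun p => p.1 ∪ p.2) ?_ ?_ (tilings_finite (hR.union hS))
  · rintro ⟨T, U⟩ ⟨hT, hU⟩
    exact IsTiling.union hT hU hd
  · rintro ⟨T, U⟩ ⟨hT, hU⟩ ⟨T', U'⟩ ⟨hT', hU'⟩ he
    simp only [Set.mem_setOf_eq] at hT hU hT' hU'
    simp only at he
    have e1 := IsTiling.filter_eq hT hU hd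
    have e2 := IsTiling.filter_eq hT' hU' hd
    have e3 := IsTiling.filter_eq hU hT hd.symm
    have e4 := IsTiling.filter_eq hU' hT' hd.symm
    rw [Set.union_comm U T] at e3
    rw [Set.union_comm U' T'] at e4
    rw [he] at e1 e3
    rw [e1] at e2
    rw [e3] at e4
    exact Prod.ext e2 e4

/-- `R` is finite and has at least `m` tilings. -/
def AtLeast (R : Set (ℤ × ℤ × ℤ)) (m : ℕ) : Prop := R.Finite ∧ m ≤ cnt R

theorem AtLeast.union {R S : Set (ℤ × ℤ × ℤ)} {m n : ℕ} (h : AtLeast R m) (g : AtLeast S n)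
    (hd : Disjoint R S) : AtLeast (R ∪ S) (m * n) :=
  ⟨h.1.union g.1, (Nat.mul_le_mul h.2 g.2).trans (cnt_union h.1 g.1 hd)⟩

theorem AtLeast.mono {R : Set (ℤ × ℤ × ℤ)} {m n : ℕ} (h : AtLeast R m) (hn : n ≤ m) :
    AtLeast R n := ⟨h.1, hn.trans h.2⟩

theorem atLeast_empty : AtLeast ∅ 1 := by
  refine ⟨Set.finite_empty, one_le_cnt Set.finite_empty (T := ∅) ⟨?_, ?_, ?_⟩⟩
  · intro s hs; exact absurd hs (Set.notMem_empty s)
  · exact Set.pairwiseDisjoint_empty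
  · exact Set.sUnion_empty

/-- Symmetries: an injective map sending bones to bones. -/
theorem cnt_image {f : ℤ × ℤ × ℤ → ℤ × ℤ × ℤ} (hf : Function.Injective f)
    (hb : ∀ c, ∀ d ∈ dirs, ∃ c', ∃ d' ∈ dirs, f '' bone c d = bone c' d')
    {R : Set (ℤ × ℤ × ℤ)} (hR : R.Finite) : cnt R ≤ cnt (f '' R) := by
  unfold cnt
  refine Set.ncard_le_ncard_of_injOn (fun T => (fun s => f '' s) '' T) ?_ ?_
    (tilings_finite (hR.image f))
  · rintro T ⟨h1, h2, h3⟩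
    refine ⟨?_, ?_, ?_⟩
    · rintro _ ⟨s, hs, rfl⟩
      obtain ⟨c, d, hd, rfl⟩ := h1 s hs
      exact hb c d hd
    · rintro _ ⟨s, hs, rfl⟩ _ ⟨t, ht, rfl⟩ hst
      have hne : s ≠ t := by
        rintro rfl; exact hst rfl
      have := h2 hs ht hne
      simp only [Function.onFun, id] at this ⊢
      exact (Set.disjoint_image_iff hf).2 this
    · rw [← h3, Set.sUnion_image, Set.sUnion_eq_biUnion, Set.image_iUnion₂]
  · intro T _ T' _ he
    have hinj : Function.Injective (fun s : Set (ℤ × ℤ × ℤ) => f '' s) :=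
      Set.image_injective.2 hf
    exact Set.image_injective.2 hinj he

end Pool.Agent.BonT
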