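import Mathlib

/-!
# Bone tilings: definitions

Cells of the hexagonal grid are integer triples with sum `1`; a bone is a set `{c, c + d, c + 2d}` with `d` one
of `(1,-1,0)`, `(0,1,-1)`, `(-1,0,1)`.
-/

set_option autoImplicit false

namespace Pool.Agent.BonT

/-- The three bone directions. -/
def dirs : Set (ℤ × ℤ × ℤ) := {(1, -1, 0), (0, 1, -1), (-1, 0, 1)}

/-- The bone `{c, c + d, c + 2 d}`. -/
def bone (c d : ℤ × ℤ × ℤ) : Set (ℤ × ℤ × ℤ) := {c, c + d, c + d + d}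

/-- `T` is a bone tiling of `R`: a set of bones, pairwise disjoint, with union `R`. -/
def IsTiling (R : Set (ℤ × ℤ × ℤ)) (T : Set (Set (ℤ × ℤ × ℤ))) : Prop :=
  (∀ s ∈ T, ∃ c, ∃ d ∈ dirs, s = bone c d) ∧ T.PairwiseDisjoint id ∧ ⋃₀ T = R

/-- The number of bone tilings of `R`. -/
noncomputable def cnt (R : Set (ℤ × ℤ × ℤ)) : ℕ := {T | IsTiling R T}.ncard

/-- The `(a,b)`-benzel. -/
def benzel (a b : ℤ) : Set (ℤ × ℤ × ℤ) :=
  {c | c.1 + c.2.1 + c.2.2 = 1 ∧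
    (-(a - 1) ≤ c.2.1 - c.1 ∧ c.2.1 - c.1 ≤ b - 1) ∧
    (-(a - 1) ≤ c.2.2 - c.2.1 ∧ c.2.2 - c.2.1 ≤ b - 1) ∧
    (-(a - 1) ≤ c.1 - c.2.2 ∧ c.1 - c.2.2 ≤ b - 1)}

/-- The number of bone tilings of the `(k(3k-1)/2, k(3k+1)/2)`-benzel. -/
noncomputable def tilingNumber (k : ℕ) : ℕ :=
  cnt (benzel ((k : ℤ) * (3 * k - 1) / 2) ((k : ℤ) * (3 * k + 1) / 2))

end Pool.Agent.BonT
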