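import Pool.Agent.BonT.Third

/-!
# Bone tilings: the ring of three bars, and the outer part of the benzel
-/

set_option autoImplicit false

namespace Pool.Agent.BonT

def pK (n w z y : ℤ) : Prop := n + 1 ≤ z ∧ z ≤ n + w + 1 ∧ w + 2 - 2 * z ≤ y ∧ y ≤ z + w + 1

theorem kim_sup_z {n w x y z : ℤ} (hs : x + y + z = 1) (hn : 0 ≤ n) (hw : 0 ≤ w)
    (hz : n + 1 ≤ z) (h : Vp (n + w + 1) (w + 1) x y z) :
    Vp n w x y z ∨ pK n w z y ∨ pK n w x z := by
  by_cases h1 : x - z ≤ -w - 1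
  · by_cases h2 : z ≤ n + w + 1
    · right; left; unfold pK
      rcases h with h | h | h | h <;> omega
    · right; right; unfold pK
      rcases h with h | h | h | h <;> omega
  · by_cases h2 : x ≤ n
    · left; right; right; left; omega
    · by_cases h3 : w + 2 - 2 * x ≤ z
      · right; right; unfold pK
        rcases h with h | h | h | h <;> omega
      · left; right; right; right; omega

theorem kim_sup {n w x y z : ℤ} (hs : x + y + z = 1) (hn : 0 ≤ n) (hw : 0 ≤ w)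
    (h : Vp (n + w + 1) (w + 1) x y z) :
    Vp n w x y z ∨ pK n w z y ∨ pK n w x z ∨ pK n w y x := by
  by_cases hz : n + 1 ≤ z
  · have := kim_sup_z hs hn hw hz h
    tauto
  by_cases hx : n + 1 ≤ x
  · have := kim_sup_z (x := y) (y := z) (z := x) (by omega) hn hw hx (Vp_rot h)
    rcases this with h' | h' | h'
    · exact Or.inl (Vp_rot (Vp_rot h'))
    · tauto
    · tauto
  by_cases hy : n + 1 ≤ y
  · have := kim_sup_z (x := z) (y := x) (z := y) (by omega) hn hw hy (Vp_rot (Vp_rot h))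
    rcases this with h' | h' | h'
    · exact Or.inl (Vp_rot h')
    · tauto
    · tauto
  · exact Or.inl (Or.inl ⟨by omega, by omega, by omega⟩)

theorem kim_sub {n w x y z : ℤ} (hs : x + y + z = 1) (hn : 0 ≤ n) (hw : 0 ≤ w)
    (h : pK n w z y) : Vp (n + w + 1) (w + 1) x y z := by
  unfold pK at h
  by_cases hy : y ≤ n + w + 1
  · left; omega
  · right; left; omega

theorem pK_not_Vp {n w x y z : ℤ} (hs : x + y + z = 1) (hn : 0 ≤ n) (hw : 0 ≤ w)
    (h : pK n w z y) : ¬ Vp n w x y z := by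
  intro g
  unfold pK at h
  rcases g with g | g | g | g <;> omega

theorem pK_not_rot {n w x y z : ℤ} (hs : x + y + z = 1) (hn : 0 ≤ n) (hw : 0 ≤ w)
    (h : pK n w z y) : ¬ pK n w x z := by
  intro g
  unfold pK at h g
  omega

theorem kim_eq {n w : ℤ} (hn : 0 ≤ n) (hw : 0 ≤ w) :
    V (n + w + 1) (w + 1) = V n w ∪ reg (pK n w) ∪ reg1 (pK n w) ∪ reg2 (pK n w) := by
  ext ⟨x, y, z⟩
  simp only [Set.mem_union, mem_V, mem_reg, mem_reg1, mem_reg2]
  constructor
  · rintro ⟨hs, h⟩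
    have := kim_sup hs hn hw h
    tauto
  · rintro (((⟨hs, h⟩ | ⟨hs, h⟩) | ⟨hs, h⟩) | ⟨hs, h⟩)
    · refine ⟨hs, ?_⟩
      rcases h with h | h | h | h
      · left; omega
      · by_cases hy : y ≤ n + w + 1
        · left; omega
        · right; left; omega
      · by_cases hy : z ≤ n + w + 1
        · left; omega
        · right; right; left; omega
      · by_cases hy : x ≤ n + w + 1
        · left; omega
        · right; right; right; omega
    · exact ⟨hs, kim_sub hs hn hw h⟩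
    · have := kim_sub (x := y) (y := z) (z := x) (by omega) hn hw h
      exact ⟨hs, Vp_rot (Vp_rot this)⟩
    · have := kim_sub (x := z) (y := x) (z := y) (by omega) hn hw h
      exact ⟨hs, Vp_rot this⟩

/-- Three rotated copies of a region, outside an invariant one. -/
theorem three_disj {A : Set (ℤ × ℤ × ℤ)} {P : ℤ → ℤ → ℤ → Prop} {φ : ℤ → ℤ → Prop}
    (hA : ∀ x y z, (x, y, z) ∈ A ↔ x + y + z = 1 ∧ P x y z)
    (hrot : ∀ x y z, P x y z → P y z x)
    (h1 : ∀ x y z, x + y + z = 1 → φ z y → ¬ P x y z)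
    (h2 : ∀ x y z, x + y + z = 1 → φ z y → ¬ φ x z) :
    Disjoint A (reg φ) ∧ Disjoint (A ∪ reg φ) (reg1 φ) ∧
      Disjoint (A ∪ reg φ ∪ reg1 φ) (reg2 φ) := by
  refine ⟨?_, ?_, ?_⟩
  · rw [Set.disjoint_left]
    rintro ⟨x, y, z⟩ h ⟨-, g⟩
    obtain ⟨hs, h⟩ := (hA x y z).1 h
    exact h1 x y z hs g h
  · rw [Set.disjoint_left]
    rintro ⟨x, y, z⟩ (h | ⟨hs, h⟩) ⟨-, g⟩
    · obtain ⟨hs, h⟩ := (hA x y z).1 h
      simp only at g
      exact h1 y z x (by omega) g (hrot _ _ _ h)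
    · simp only at hs h g
      exact h2 x y z hs h g
  · rw [Set.disjoint_left]
    rintro ⟨x, y, z⟩ ((h | ⟨hs, h⟩) | ⟨hs, h⟩) ⟨-, g⟩
    · obtain ⟨hs, h⟩ := (hA x y z).1 h
      simp only at g
      exact h1 z x y (by omega) g (hrot _ _ _ (hrot _ _ _ h))
    · simp only at hs h g
      exact h2 z x y (by omega) g h
    · simp only at hs h g
      exact h2 y z x (by omega) h g

theorem three_atLeast {A : Set (ℤ × ℤ × ℤ)} {P : ℤ → ℤ → ℤ → Prop} {φ : ℤ → ℤ → Prop}
    (hA : ∀ x y z, (x, y, z) ∈ A ↔ x + y + z = 1 ∧ P x y z)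
    (hrot : ∀ x y z, P x y z → P y z x)
    (h1 : ∀ x y z, x + y + z = 1 → φ z y → ¬ P x y z)
    (h2 : ∀ x y z, x + y + z = 1 → φ z y → ¬ φ x z) {m : ℕ} (hm : AtLeast A m)
    (hφ : AtLeast (reg φ) 1) : AtLeast (A ∪ reg φ ∪ reg1 φ ∪ reg2 φ) m := by
  obtain ⟨d1, d2, d3⟩ := three_disj hA hrot h1 h2
  have := ((hm.union hφ d1).union hφ.reg1 d2).union hφ.reg2 d3
  simpa using this

theorem kim_atLeast {n w : ℤ} (hn : 0 ≤ n) (hw : 0 ≤ w) {m : ℕ} (h : AtLeast (V n w) m) :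
    AtLeast (V (n + w + 1) (w + 1)) m := by
  rw [kim_eq hn hw]
  refine three_atLeast (P := Vp n w) (fun x y z => Iff.rfl) (fun x y z h => Vp_rot h)
    (fun x y z hs h => pK_not_Vp hs hn hw h) (fun x y z hs h => pK_not_rot hs hn hw h) h ?_
  refine atLeast_of_tiling (10 * n + 10 * w + 20) ?_ ?_
  · intro z y h; unfold pK at h; omega
  · refine col_tiling (fun z => w + 2 - 2 * z) ?_ ?_ ?_ <;>
    · intro z y h hm; unfold pK at h ⊢; omega

theorem V_zero : AtLeast (V 0 0) 1 := by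
  have e : V 0 0 = ∅ := by
    ext ⟨x, y, z⟩
    simp only [mem_V, Set.mem_empty_iff_false, iff_false]
    rintro ⟨hs, h | h | h | h⟩ <;> omega
  rw [e]
  exact atLeast_empty

/-- The outer columns. -/
def pO (n w z y : ℤ) : Prop :=
  (n + 1 ≤ z ∧ z ≤ n + w + 1 ∧ w + 2 - 2 * z ≤ y ∧ y ≤ 3 * n + w + 1 - 2 * z) ∨
    (n + w + 2 ≤ z ∧ z ≤ 2 * n + w ∧ z - 3 * n - 2 * w - 1 ≤ y ∧ y ≤ 3 * n + w + 1 - 2 * z)

def Bp (n w x y z : ℤ) : Prop :=
  (-(3 * n + w) ≤ y - x ∧ y - x ≤ 3 * n + 2 * w + 1) ∧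
  (-(3 * n + w) ≤ z - y ∧ z - y ≤ 3 * n + 2 * w + 1) ∧
  (-(3 * n + w) ≤ x - z ∧ x - z ≤ 3 * n + 2 * w + 1)

theorem Bp_rot {n w x y z : ℤ} (h : Bp n w x y z) : Bp n w y z x := ⟨h.2.1, h.2.2, h.1⟩

theorem outer_sup_z {n w x y z : ℤ} (hs : x + y + z = 1) (hn : 0 ≤ n) (hw : 0 ≤ w)
    (hz : n + 1 ≤ z) (h : Bp n w x y z) :
    Vp n w x y z ∨ pO n w z y ∨ pO n w x z := by
  unfold Bp at h
  by_cases h1 : x - z ≤ -w - 1
  · right; left; unfold pO
    by_cases h2 : z ≤ n + w + 1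
    · left; omega
    · right; omega
  · by_cases h2 : x ≤ n
    · left; right; right; left; omega
    · by_cases h3 : w + 2 - 2 * x ≤ z
      · right; right; unfold pO
        by_cases h4 : x ≤ n + w + 1
        · left; omega
        · right; omega
      · left; right; right; right; omega

theorem outer_sup {n w x y z : ℤ} (hs : x + y + z = 1) (hn : 0 ≤ n) (hw : 0 ≤ w)
    (h : Bp n w x y z) :
    Vp n w x y z ∨ pO n w z y ∨ pO n w x z ∨ pO n w y x := by
  by_cases hz : n + 1 ≤ z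
  · have := outer_sup_z hs hn hw hz h
    tauto
  by_cases hx : n + 1 ≤ x
  · have := outer_sup_z (x := y) (y := z) (z := x) (by omega) hn hw hx (Bp_rot h)
    rcases this with h' | h' | h'
    · exact Or.inl (Vp_rot (Vp_rot h'))
    · tauto
    · tauto
  by_cases hy : n + 1 ≤ y
  · have := outer_sup_z (x := z) (y := x) (z := y) (by omega) hn hw hy (Bp_rot (Bp_rot h))
    rcases this with h' | h' | h'
    · exact Or.inl (Vp_rot h')
    · tauto
    · tauto
  · exact Or.inl (Or.inl ⟨by omega, by omega, by omega⟩)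

theorem outer_sub {n w x y z : ℤ} (hs : x + y + z = 1) (hn : 0 ≤ n) (hw : 0 ≤ w)
    (h : pO n w z y) : Bp n w x y z := by
  unfold Bp
  rcases h with h | h <;> omega

theorem pO_not_Vp {n w x y z : ℤ} (hs : x + y + z = 1) (hn : 0 ≤ n) (hw : 0 ≤ w)
    (h : pO n w z y) : ¬ Vp n w x y z := by
  intro g
  rcases h with h | h <;> rcases g with g | g | g | g <;> omega

theorem pO_not_rot {n w x y z : ℤ} (hs : x + y + z = 1) (hn : 0 ≤ n) (hw : 0 ≤ w)
    (h : pO n w z y) : ¬ pO n w x z := by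
  intro g
  rcases h with h | h <;> rcases g with g | g <;> omega

theorem Vp_Bp {n w x y z : ℤ} (hs : x + y + z = 1) (hn : 0 ≤ n) (hw : 0 ≤ w)
    (hwn : w ≤ 3 * n) (h : Vp n w x y z) : Bp n w x y z := by
  unfold Bp
  rcases h with h | h | h | h <;> omega

end Pool.Agent.BonT
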