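import Pool.Agent.BonT.Strip
import Pool.Agent.BonT.Outer

/-!
# Bone tilings: the lower bound
-/

set_option autoImplicit false

namespace Pool.Agent.BonT

theorem O_one {n w : ℤ} (hn : 0 ≤ n) (hw : 0 ≤ w) : AtLeast (reg (pO n w)) 1 := by
  refine atLeast_of_tiling (10 * n + 10 * w + 20) ?_ ?_
  · intro z y h; rcases h with h | h <;> omega
  · refine col_tiling (fun z => if z ≤ n + w + 1 then w + 2 - 2 * z else z - 3 * n - 2 * w - 1)
      ?_ ?_ ?_ <;>
    · intro z y h hm
      split_ifs at hm with hz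
      · have h' : n + 1 ≤ z ∧ z ≤ n + w + 1 ∧ w + 2 - 2 * z ≤ y ∧ y ≤ 3 * n + w + 1 - 2 * z := by
          rcases h with h | h
          · exact h
          · exfalso; omega
        simp only [pO]
        omega
      · have h' : n + w + 2 ≤ z ∧ z ≤ 2 * n + w ∧ z - 3 * n - 2 * w - 1 ≤ y ∧
            y ≤ 3 * n + w + 1 - 2 * z := by
          rcases h with h | h
          · exfalso; omega
          · exact h
        simp only [pO]
        omega

theorem benzel_eq {n w : ℤ} (hn : 0 ≤ n) (hw : 0 ≤ w) (hwn : w ≤ 3 * n) :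
    benzel (3 * n + w + 1) (3 * n + 2 * w + 2) =
      V n w ∪ reg (pO n w) ∪ reg1 (pO n w) ∪ reg2 (pO n w) := by
  ext ⟨x, y, z⟩
  simp only [Set.mem_union, mem_V, mem_reg, mem_reg1, mem_reg2]
  have hb : (x, y, z) ∈ benzel (3 * n + w + 1) (3 * n + 2 * w + 2) ↔
      x + y + z = 1 ∧ Bp n w x y z := by
    simp only [benzel, Set.mem_ofPred_eq, Bp]
    refine and_congr_right (fun _ => ?_)
    constructor <;> intro h <;> omega
  rw [hb]
  constructor
  · rintro ⟨hs, h⟩
    have := outer_sup hs hn hw h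
    tauto
  · rintro (((⟨hs, h⟩ | ⟨hs, h⟩) | ⟨hs, h⟩) | ⟨hs, h⟩)
    · exact ⟨hs, Vp_Bp hs hn hw hwn h⟩
    · exact ⟨hs, outer_sub hs hn hw h⟩
    · have := outer_sub (x := y) (y := z) (z := x) (by omega) hn hw h
      exact ⟨hs, Bp_rot (Bp_rot this)⟩
    · have := outer_sub (x := z) (y := x) (z := y) (by omega) hn hw h
      exact ⟨hs, Bp_rot this⟩

theorem benzel_atLeast {n w : ℤ} (hn : 0 ≤ n) (hw : 0 ≤ w) (hwn : w ≤ 3 * n) {m : ℕ}
    (h : AtLeast (V n w) m) : AtLeast (benzel (3 * n + w + 1) (3 * n + 2 * w + 2)) m := by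
  rw [benzel_eq hn hw hwn]
  exact three_atLeast (P := Vp n w) (fun x y z => Iff.rfl) (fun x y z h => Vp_rot h)
    (fun x y z hs h => pO_not_Vp hs hn hw h) (fun x y z hs h => pO_not_rot hs hn hw h) h
    (O_one hn hw)

/-- Triangular numbers. -/
def tri : ℕ → ℕ
  | 0 => 0
  | (w + 1) => tri w + w + 1

theorem two_tri (w : ℕ) : 2 * tri w = w * (w + 1) := by
  induction w with
  | zero => rfl
  | succ w ih => simp only [tri]; nlinarith

theorem tri_add_three (w : ℕ) : tri (w + 3) = tri w + 3 * w + 6 := by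
  simp only [tri]; omega

theorem le_tri (w : ℕ) : w ≤ tri w := by
  induction w with
  | zero => rfl
  | succ w ih => simp only [tri]; omega

/-- The exponent. -/
def ex : ℕ → ℕ
  | 0 => 0
  | 1 => 0
  | 2 => 0
  | 3 => 0
  | (w + 4) => ex (w + 1) + 3 * (w + 2) * (tri (w + 1) - 1)

theorem V_base (w : ℕ) : AtLeast (V (tri w) w) 1 := by
  induction w with
  | zero => simpa [tri] using V_zero
  | succ w ih =>
    have := kim_atLeast (n := tri w) (w := w) (by positivity) (by positivity) ih
    simpa [tri, add_assoc] using this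

theorem tt_ge (N : ℕ) (hN : 1 ≤ N) : 3 ^ (N - 1) ≤ tt (3 * N) := by
  obtain ⟨m, rfl⟩ : ∃ m, N = m + 1 := ⟨N - 1, by omega⟩
  have h := (tt_bound m).1
  have e : 3 * (m + 1) = 3 * m + 3 := by ring
  rw [e, Nat.add_sub_cancel]
  omega

theorem V_atLeast (w : ℕ) : AtLeast (V (tri w) w) (3 ^ ex w) := by
  induction w using Nat.strong_induction_on with
  | _ w ih =>
    match w, ih with
    | 0, _ => simpa [ex] using V_base 0
    | 1, _ => simpa [ex] using V_base 1
    | 2, _ => simpa [ex] using V_base 2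
    | 3, _ => simpa [ex] using V_base 3
    | (w + 4), ih =>
      have h := ih (w + 1) (by omega)
      have hN : 1 ≤ tri (w + 1) := by simp only [tri]; omega
      have hq := (pQ_atLeast (tri (w + 1)) (w + 1)).mono
        (Nat.pow_le_pow_left (tt_ge _ hN) (w + 1 + 1))
      have hle := le_tri (w + 1)
      have := ring_atLeast (n := tri (w + 1)) (w := (w + 1 : ℕ)) (by exact_mod_cast hN)
        (by positivity) (by push_cast; push_cast at hle; omega) h hq
      have e1 : ((tri (w + 1) : ℕ) : ℤ) + 3 * ((w + 1 : ℕ) : ℤ) + 6 = (tri (w + 4) : ℕ) := by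
        have := tri_add_three (w + 1)
        push_cast [this]; ring
      have e2 : ((w + 1 : ℕ) : ℤ) + 3 = (w + 4 : ℕ) := by push_cast; ring
      rw [e1, e2] at this
      refine this.mono ?_
      apply le_of_eq
      rw [← pow_mul, ← pow_mul, ← pow_add]
      congr 1
      show ex (w + 1) + 3 * (w + 2) * (tri (w + 1) - 1) = _
      ring

theorem ex_bound (w : ℕ) : w ^ 4 ≤ 8 * ex w + 5 * w ^ 3 := by
  induction w using Nat.strong_induction_on with
  | _ w ih =>
    match w, ih with
    | 0, _ => decide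
    | 1, _ => decide
    | 2, _ => decide
    | 3, _ => decide
    | (w + 4), ih =>
      have h := ih (w + 1) (by omega)
      have h2 := two_tri (w + 1)
      have hN : 1 ≤ tri (w + 1) := by simp only [tri]; omega
      have e : ex (w + 4) = ex (w + 1) + 3 * (w + 2) * (tri (w + 1) - 1) := rfl
      rw [e]
      obtain ⟨u, hu⟩ : ∃ u, tri (w + 1) = u + 1 := ⟨tri (w + 1) - 1, by omega⟩
      rw [hu] at h2 ⊢
      rw [Nat.add_sub_cancel]
      have h3 : 2 * u = (w + 1) * (w + 1 + 1) - 2 := by omega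
      have h4 : (w + 1) * (w + 1 + 1) = 2 * u + 2 := by omega
      nlinarith [h, h4, mul_comm w u]

end Pool.Agent.BonT
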