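import Pool.Agent.BonT.Ring

/-!
# Bone tilings: the pieces of one third of the ring
-/

set_option autoImplicit false

namespace Pool.Agent.BonT

def pB1 (n w z y : ℤ) : Prop := y = n + 3 * w + 6 ∧ n - w - 2 ≤ z ∧ z ≤ n + 2 * w + 3

def pB2 (n w z y : ℤ) : Prop :=
  n + w + 4 ≤ y ∧ y ≤ n + 3 * w + 5 ∧ n - (y - n - w - 4) / 2 ≤ z ∧
    z ≤ n + 2 + 2 * ((y - n - w - 4) / 2)

def pL (n w z y : ℤ) : Prop :=
  n - w ≤ z ∧ z ≤ n ∧ z + w + 1 ≤ y ∧ y ≤ 3 * n + 3 + w - 2 * z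

def pR1 (n w z y : ℤ) : Prop :=
  n + 1 ≤ z ∧ z ≤ n + 2 * w + 3 ∧ n + 1 + w - (z - n - 1) / 2 ≤ y ∧
    y ≤ n + w + 3 + 2 * ((z - n - 1) / 2)

def pR2 (n w z y : ℤ) : Prop :=
  n + 2 * w + 4 ≤ z ∧ z ≤ n + 3 * w + 6 ∧ 3 * n + 4 * w + 7 - 2 * z ≤ y ∧ y ≤ z + w + 3

def pG (n w z y : ℤ) : Prop :=
  w ≤ y + z - 2 - 2 * n ∧ y + z - 2 - 2 * n ≤ 2 * w ∧
    2 * (y + z - 2 - 2 * n) - 2 * w + 1 ≤ z - 1 - n ∧
    z - 1 - n ≤ 4 * w + 3 - (y + z - 2 - 2 * n)

def pQ (n w z y : ℤ) : Prop :=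
  n + 1 ≤ z ∧ z ≤ n + 3 * w + 5 ∧ w + 2 - n ≤ y + z ∧ y + z ≤ w + 1 + 2 * n

def pC (n w z y : ℤ) : Prop := z = n + 3 * w + 6 ∧ -2 * n - 2 * w - 2 ≤ y ∧ y ≤ n - 2 * w - 6

theorem phiS_iff {n w : ℤ} (hn : 1 ≤ n) (hw : 0 ≤ w) (z y : ℤ) :
    phiS n w z y ↔ pQ n w z y ∨ pB1 n w z y ∨ pB2 n w z y ∨ pL n w z y ∨ pR1 n w z y ∨
      pR2 n w z y ∨ pG n w z y ∨ pC n w z y := by
  constructor
  · rintro (⟨h1, h2, h3, h4 | h4⟩ | ⟨h1, h2, h3, h4⟩)
    · by_cases h5 : y ≤ 3 * n + 3 + w - 2 * z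
      · right; right; right; left; unfold pL; omega
      · right; right; left; unfold pB2; omega
    · right; left; unfold pB1; omega
    · by_cases h5 : z ≤ n + 2 * w + 3
      · by_cases h6 : n + w + 3 + 2 * ((z - n - 1) / 2) < y
        · by_cases h7 : y = n + 3 * w + 6
          · right; left; unfold pB1; omega
          · right; right; left; unfold pB2; omega
        · by_cases h7 : n + 1 + w - (z - n - 1) / 2 ≤ y
          · right; right; right; right; left; unfold pR1; omega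
          · by_cases h8 : w ≤ y + z - 2 - 2 * n
            · right; right; right; right; right; right; left; unfold pG; omega
            · left; unfold pQ; omega
      · by_cases h6 : 3 * n + 4 * w + 7 - 2 * z ≤ y
        · right; right; right; right; right; left; unfold pR2; omega
        · by_cases h9 : z = n + 3 * w + 6
          · right; right; right; right; right; right; right; unfold pC; omega
          · by_cases h8 : w ≤ y + z - 2 - 2 * n
            · right; right; right; right; right; right; left; unfold pG; omega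
            · left; unfold pQ; omega
  · rintro (h | h | h | h | h | h | h | h)
    · right; unfold pQ at h; unfold phiR; omega
    · unfold pB1 at h
      by_cases hz : z ≤ n
      · left; unfold phiT; omega
      · right; unfold phiR; omega
    · unfold pB2 at h
      by_cases hz : z ≤ n
      · left; unfold phiT; omega
      · right; unfold phiR; omega
    · left; unfold pL at h; unfold phiT; omega
    · right; unfold pR1 at h; unfold phiR; omega
    · right; unfold pR2 at h; unfold phiR; omega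
    · right; unfold pG at h; unfold phiR; omega
    · right; unfold pC at h; unfold phiR; omega

theorem reg_or (φ ψ : ℤ → ℤ → Prop) : reg (fun z y => φ z y ∨ ψ z y) = reg φ ∪ reg ψ := by
  ext c
  simp only [reg, Set.mem_union]
  constructor
  · rintro ⟨h1, h2 | h2⟩
    · exact Or.inl ⟨h1, h2⟩
    · exact Or.inr ⟨h1, h2⟩
  · rintro (⟨h1, h2⟩ | ⟨h1, h2⟩)
    · exact ⟨h1, Or.inl h2⟩
    · exact ⟨h1, Or.inr h2⟩

theorem reg_congr {φ ψ : ℤ → ℤ → Prop} (h : ∀ z y, φ z y ↔ ψ z y) : reg φ = reg ψ := by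
  ext c
  exact and_congr_right (fun _ => h _ _)

theorem AtLeast.or {φ ψ : ℤ → ℤ → Prop} {m m' : ℕ} (h : AtLeast (reg φ) m)
    (g : AtLeast (reg ψ) m') (hd : ∀ z y, φ z y → ¬ ψ z y) :
    AtLeast (reg (fun z y => φ z y ∨ ψ z y)) (m * m') := by
  rw [reg_or]
  refine h.union g ?_
  rw [Set.disjoint_left]
  rintro c ⟨-, h1⟩ ⟨-, h2⟩
  exact hd _ _ h1 h2

theorem atLeast_of_tiling {φ : ℤ → ℤ → Prop} (M : ℤ)
    (h : ∀ z y, φ z y → (-M ≤ z ∧ z ≤ M) ∧ (-M ≤ y ∧ y ≤ M)) (ht : ∃ T, IsTiling (reg φ) T) :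
    AtLeast (reg φ) 1 := by
  obtain ⟨T, hT⟩ := ht
  exact ⟨reg_finite M h, one_le_cnt (reg_finite M h) hT⟩

theorem B1_one {n w : ℤ} (hn : 1 ≤ n) (hw : 0 ≤ w) : AtLeast (reg (pB1 n w)) 1 := by
  refine atLeast_of_tiling (10 * n + 10 * w + 20) ?_ ?_
  · intro z y h; unfold pB1 at h; omega
  · refine row_tiling (fun _ => n - w - 2) ?_ ?_ ?_ <;>
    · intro z y h hm; unfold pB1 at h ⊢; omega

theorem B2_one {n w : ℤ} (hn : 1 ≤ n) (hw : 0 ≤ w) : AtLeast (reg (pB2 n w)) 1 := by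
  refine atLeast_of_tiling (10 * n + 10 * w + 20) ?_ ?_
  · intro z y h; unfold pB2 at h; omega
  · refine row_tiling (fun y => n - (y - n - w - 4) / 2) ?_ ?_ ?_ <;>
    · intro z y h hm; unfold pB2 at h ⊢; omega

theorem L_one {n w : ℤ} (hn : 1 ≤ n) (hw : 0 ≤ w) : AtLeast (reg (pL n w)) 1 := by
  refine atLeast_of_tiling (10 * n + 10 * w + 20) ?_ ?_
  · intro z y h; unfold pL at h; omega
  · refine col_tiling (fun z => z + w + 1) ?_ ?_ ?_ <;>
    · intro z y h hm; unfold pL at h ⊢; omega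

theorem R1_one {n w : ℤ} (hn : 1 ≤ n) (hw : 0 ≤ w) : AtLeast (reg (pR1 n w)) 1 := by
  refine atLeast_of_tiling (10 * n + 10 * w + 20) ?_ ?_
  · intro z y h; unfold pR1 at h; omega
  · refine col_tiling (fun z => n + 1 + w - (z - n - 1) / 2) ?_ ?_ ?_ <;>
    · intro z y h hm; unfold pR1 at h ⊢; omega

theorem R2_one {n w : ℤ} (hn : 1 ≤ n) (hw : 0 ≤ w) : AtLeast (reg (pR2 n w)) 1 := by
  refine atLeast_of_tiling (10 * n + 10 * w + 20) ?_ ?_
  · intro z y h; unfold pR2 at h; omega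
  · refine col_tiling (fun z => 3 * n + 4 * w + 7 - 2 * z) ?_ ?_ ?_ <;>
    · intro z y h hm; unfold pR2 at h ⊢; omega

theorem G_one {n w : ℤ} (hn : 1 ≤ n) (hw : 0 ≤ w) : AtLeast (reg (pG n w)) 1 := by
  refine atLeast_of_tiling (10 * n + 10 * w + 20) ?_ ?_
  · intro z y h; unfold pG at h; omega
  · refine diag_tiling (fun s => n + 1 + (2 * (s - 2 - 2 * n) - 2 * w + 1)) ?_ ?_ ?_ <;>
    · intro z y h hm; unfold pG at h ⊢; omega

theorem C_one {n w : ℤ} (hn : 1 ≤ n) (hw : 0 ≤ w) : AtLeast (reg (pC n w)) 1 := by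
  refine atLeast_of_tiling (10 * n + 10 * w + 20) ?_ ?_
  · intro z y h; unfold pC at h; omega
  · refine col_tiling (fun _ => -2 * n - 2 * w - 2) ?_ ?_ ?_ <;>
    · intro z y h hm; unfold pC at h ⊢; omega

end Pool.Agent.BonT
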