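import Pool.Agent.BonT.Upper

/-!
# Bone tilings: the recursion over covered sets

Cells are ordered by `z`, then by `y`. From a covered set `C` one moves to `C ∪ b`, where `b` is a bone in the
uncovered part which contains its first cell. The number of tilings of the uncovered part is the sum over the
moves.
-/

set_option autoImplicit false

namespace Pool.Agent.BonT

/-- The order of the cells: by `z`, then by `y`. -/
def before (c e : ℤ × ℤ × ℤ) : Prop := c.2.2 < e.2.2 ∨ (c.2.2 = e.2.2 ∧ c.2.1 < e.2.1)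

/-- `c` is the first cell of `Q`. -/
def IsFirst (Q : Set (ℤ × ℤ × ℤ)) (c : ℤ × ℤ × ℤ) : Prop := c ∈ Q ∧ ∀ e ∈ Q, e ≠ c → before c e

/-- The covered sets `C ∪ b`, where `b` is a bone contained in `R \ C` and containing the first cell of `R \ C`. -/
def moves (R C : Set (ℤ × ℤ × ℤ)) : Set (Set (ℤ × ℤ × ℤ)) :=
  {C' | ∃ c, IsFirst (R \ C) c ∧ ∃ a, ∃ d ∈ dirs, c ∈ bone a d ∧ bone a d ⊆ R \ C ∧ C' = C ∪ bone a d}

/-- The covered sets which can be reached from the empty set by moves. -/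
def states (R : Set (ℤ × ℤ × ℤ)) : Set (Set (ℤ × ℤ × ℤ)) :=
  {C | Relation.ReflTransGen (fun A B => B ∈ moves R A) ∅ C}

/-- All cells satisfy `x + y + z = 1`. -/
def Plane (R : Set (ℤ × ℤ × ℤ)) : Prop := ∀ c ∈ R, c.1 + c.2.1 + c.2.2 = 1

theorem exists_first {Q : Set (ℤ × ℤ × ℤ)} (hQ : Q.Finite) (hp : Plane Q) (hne : Q.Nonempty) :
    ∃ c, IsFirst Q c := by
  obtain ⟨c, hc, hmin⟩ := Set.exists_min_image Q (fun c => toLex (c.2.2, c.2.1)) hQ hne
  refine ⟨c, hc, fun e he hne => ?_⟩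
  have := hmin e he
  rw [Prod.Lex.toLex_le_toLex] at this
  simp only at this
  rcases this with h | ⟨h, h'⟩
  · exact Or.inl h
  · refine Or.inr ⟨h, lt_of_le_of_ne h' ?_⟩
    intro h''
    apply hne
    have h1 := hp c hc
    have h2 := hp e he
    ext
    · omega
    · exact h''.symm
    · exact h.symm

theorem IsFirst.unique {Q : Set (ℤ × ℤ × ℤ)} {c c' : ℤ × ℤ × ℤ} (h : IsFirst Q c)
    (h' : IsFirst Q c') : c = c' := by
  by_contra hne
  have h1 := h.2 c' h'.1 (Ne.symm hne)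
  have h2 := h'.2 c h.1 hne
  unfold before at h1 h2
  omega

/-- The three bones whose first cell is `c`. -/
theorem bone_first {Q : Set (ℤ × ℤ × ℤ)} {c : ℤ × ℤ × ℤ} (hc : IsFirst Q c) {a d : ℤ × ℤ × ℤ}
    (hd : d ∈ dirs) (hs : bone a d ⊆ Q) (hca : c ∈ bone a d) :
    (bone a d = {c, c + (-1, 1, 0), c + (-2, 2, 0)} ∨
      bone a d = {c, c + (0, -1, 1), c + (0, -2, 2)}) ∨
      bone a d = {c, c + (-1, 0, 1), c + (-2, 0, 2)} := by
  have m0 : a ∈ Q := hs (by simp [bone])
  have m1 : a + d ∈ Q := hs (by simp [bone])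
  have m2 : a + d + d ∈ Q := hs (by simp [bone])
  have h0 := hc.2 _ m0
  have h1 := hc.2 _ m1
  have h2 := hc.2 _ m2
  obtain ⟨x, y, z⟩ := c
  obtain ⟨x', y', z'⟩ := a
  simp only [dirs, Set.mem_insert_iff, Set.mem_singleton_iff] at hd
  simp only [bone, Set.mem_insert_iff, Set.mem_singleton_iff] at hca
  unfold before at h0 h1 h2
  rcases hd with rfl | rfl | rfl
  · left; left
    simp only [Prod.mk_add_mk, Prod.mk.injEq, ne_eq] at hca h0 h1 h2
    have : x' = x - 2 ∧ y' = y + 2 ∧ z' = z := by omega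
    obtain ⟨rfl, rfl, rfl⟩ := this
    ext ⟨p, q, r⟩
    simp only [bone, Set.mem_insert_iff, Set.mem_singleton_iff, Prod.mk_add_mk, Prod.mk.injEq]
    omega
  · left; right
    simp only [Prod.mk_add_mk, Prod.mk.injEq, ne_eq] at hca h0 h1 h2
    have : x' = x ∧ y' = y - 2 ∧ z' = z + 2 := by omega
    obtain ⟨rfl, rfl, rfl⟩ := this
    ext ⟨p, q, r⟩
    simp only [bone, Set.mem_insert_iff, Set.mem_singleton_iff, Prod.mk_add_mk, Prod.mk.injEq]
    omega
  · right
    simp only [Prod.mk_add_mk, Prod.mk.injEq, ne_eq] at hca h0 h1 h2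
    have : x' = x ∧ y' = y ∧ z' = z := by omega
    obtain ⟨rfl, rfl, rfl⟩ := this
    ext ⟨p, q, r⟩
    simp only [bone, Set.mem_insert_iff, Set.mem_singleton_iff, Prod.mk_add_mk, Prod.mk.injEq]
    omega

theorem moves_sub {R C C' : Set (ℤ × ℤ × ℤ)} (h : C' ∈ moves R C) :
    C' = C ∪ (C' \ C) ∧ C' \ C ⊆ R \ C := by
  obtain ⟨c, hc, a, d, hd, hca, hs, rfl⟩ := h
  constructor
  · rw [Set.union_sdiff_self]
    exact (Set.union_eq_self_of_subset_left Set.subset_union_left).symm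
  · rintro x ⟨hx, hxC⟩
    rcases hx with hx | hx
    · exact absurd hx hxC
    · exact hs hx

theorem moves_ncard (R C : Set (ℤ × ℤ × ℤ)) : (moves R C).Finite ∧ (moves R C).ncard ≤ 3 := by
  rcases (moves R C).eq_empty_or_nonempty with h | ⟨C', c, hc, -⟩
  · rw [h]; simp
  · have hsub : moves R C ⊆ {C ∪ {c, c + (-1, 1, 0), c + (-2, 2, 0)},
        C ∪ {c, c + (0, -1, 1), c + (0, -2, 2)}, C ∪ {c, c + (-1, 0, 1), c + (-2, 0, 2)}} := by
      rintro _ ⟨c', hc', a, d, hd, hca, hs, rfl⟩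
      rw [hc'.unique hc] at hca
      simp only [Set.mem_insert_iff, Set.mem_singleton_iff]
      rcases bone_first hc hd hs hca with (h | h) | h
      · left; rw [h]
      · right; left; rw [h]
      · right; right; rw [h]
    have hfin : ({C ∪ {c, c + (-1, 1, 0), c + (-2, 2, 0)},
        C ∪ {c, c + (0, -1, 1), c + (0, -2, 2)},
        C ∪ {c, c + (-1, 0, 1), c + (-2, 0, 2)}} : Set (Set (ℤ × ℤ × ℤ))).Finite :=
      Set.toFinite _
    refine ⟨hfin.subset hsub, (Set.ncard_le_ncard hsub hfin).trans ?_⟩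
    refine (Set.ncard_insert_le _ _).trans ?_
    refine Nat.succ_le_succ ((Set.ncard_insert_le _ _).trans ?_)
    rw [Set.ncard_singleton]

theorem ncard_with_bone_eq {Q : Set (ℤ × ℤ × ℤ)} (hQ : Q.Finite) {a d : ℤ × ℤ × ℤ}
    (hd : d ∈ dirs) (hs : bone a d ⊆ Q) :
    {T | IsTiling Q T ∧ bone a d ∈ T}.ncard = cnt (Q \ bone a d) := by
  apply le_antisymm (ncard_with_bone hQ (bone_ne a d))
  unfold cnt
  have ht : IsTiling (bone a d) {bone a d} := by
    refine ⟨?_, Set.pairwiseDisjoint_singleton _ _, Set.sUnion_singleton _⟩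
    intro s hs
    rw [Set.mem_singleton_iff] at hs
    exact ⟨a, d, hd, hs⟩
  have hdis : Disjoint (Q \ bone a d) (bone a d) := Set.disjoint_sdiff_left
  refine Set.ncard_le_ncard_of_injOn (fun T => T ∪ {bone a d}) ?_ ?_
    ((tilings_finite hQ).subset (fun T hT => hT.1))
  · intro T hT
    refine ⟨?_, Or.inr rfl⟩
    have := IsTiling.union hT ht hdis
    rwa [Set.sdiff_union_of_subset hs] at this
  · intro T hT T' hT' he
    simp only at he
    rw [← IsTiling.filter_eq hT ht hdis, ← IsTiling.filter_eq hT' ht hdis, he]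

theorem cnt_empty : cnt ∅ = 1 := by
  have : {T | IsTiling ∅ T} = {∅} := by
    ext T
    constructor
    · intro hT
      rw [Set.mem_singleton_iff, Set.eq_empty_iff_forall_notMem]
      intro s hs
      obtain ⟨x, hx⟩ := IsTiling.ne hT hs
      exact IsTiling.sub hT hs hx
    · rintro rfl
      refine ⟨?_, Set.pairwiseDisjoint_empty, Set.sUnion_empty⟩
      intro s hs; exact absurd hs (Set.notMem_empty s)
  unfold cnt
  rw [this, Set.ncard_singleton]

/-- The recursion. -/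
theorem cnt_rec {R C : Set (ℤ × ℤ × ℤ)} (hR : R.Finite) (hp : Plane R) (hC : C ⊆ R) (hne : C ≠ R) :
    cnt (R \ C) = ∑ᶠ C' ∈ moves R C, cnt (R \ C') := by
  have hQ : (R \ C).Finite := hR.subset Set.sdiff_subset
  have hQp : Plane (R \ C) := fun c hc => hp c hc.1
  have hQne : (R \ C).Nonempty := by
    rw [Set.nonempty_iff_ne_empty]
    intro h
    exact hne (Set.Subset.antisymm hC (Set.sdiff_eq_empty.1 h))
  obtain ⟨c, hc⟩ := exists_first hQ hQp hQne
  have hU : {T | IsTiling (R \ C) T} =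
      ⋃ C' ∈ moves R C, {T | IsTiling (R \ C) T ∧ C' \ C ∈ T} := by
    ext T
    simp only [Set.mem_iUnion, Set.mem_ofPred_eq, exists_prop]
    constructor
    · intro hT
      have hcT := hc.1
      rw [← hT.2.2] at hcT
      obtain ⟨s, hs, hcs⟩ := hcT
      obtain ⟨a, d, hd, rfl⟩ := hT.1 s hs
      refine ⟨C ∪ bone a d, ⟨c, hc, a, d, hd, hcs, hT.sub hs, rfl⟩, hT, ?_⟩
      have : (C ∪ bone a d) \ C = bone a d := by
        rw [Set.union_sdiff_left, sdiff_eq_left]
        exact (Set.disjoint_left.2 fun x hx hxC => ((hT.sub hs) hx).2 hxC)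
      rwa [this]
    · rintro ⟨C', -, hT, -⟩
      exact hT
  unfold cnt
  conv_lhs => rw [hU]
  have hfin : ∀ b : Set (ℤ × ℤ × ℤ), {T | IsTiling (R \ C) T ∧ b ∈ T}.Finite := fun b =>
    (tilings_finite hQ).subset (fun T hT => hT.1)
  rw [Set.Finite.ncard_biUnion (moves_ncard R C).1]
  · refine finsum_mem_congr rfl ?_
    intro C' hC'
    obtain ⟨c', hc', a, d, hd, hca, hs, rfl⟩ := hC'
    have h1 : (C ∪ bone a d) \ C = bone a d := by
      rw [Set.union_sdiff_left, sdiff_eq_left]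
      exact (Set.disjoint_left.2 fun x hx hxC => (hs hx).2 hxC)
    rw [h1, ncard_with_bone_eq hQ hd hs]
    unfold cnt
    rw [Set.sdiff_sdiff]
  · intro C' _
    exact hfin _
  · intro C' hC' D' hD' hne'
    simp only [Function.onFun]
    rw [Set.disjoint_left]
    rintro T ⟨hT, h1⟩ ⟨-, h2⟩
    have e1 := moves_sub hC'
    have e2 := moves_sub hD'
    have m1 : c ∈ C' \ C := by
      obtain ⟨c', hc', a, d, hd, hca, hs, rfl⟩ := hC'
      rw [← hc'.unique hc]
      exact ⟨Or.inr hca, hc'.1.2⟩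
    have m2 : c ∈ D' \ C := by
      obtain ⟨c', hc', a, d, hd, hca, hs, rfl⟩ := hD'
      rw [← hc'.unique hc]
      exact ⟨Or.inr hca, hc'.1.2⟩
    have : C' \ C = D' \ C := by
      by_contra h
      exact Set.disjoint_left.1 (hT.2.1 h1 h2 h) m1 m2
    apply hne'
    rw [e1.1, e2.1, this]

end Pool.Agent.BonT
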