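import Pool.Agent.BonT.Rec

/-!
# Bone tilings: the number of covered sets that can be reached
-/

set_option autoImplicit false

namespace Pool.Agent.BonT

/-- The invariant of the reachable covered sets. -/
def Inv (R C : Set (ℤ × ℤ × ℤ)) : Prop :=
  C ⊆ R ∧ ∀ e ∈ C, ∀ c ∈ R \ C, before c e →
    e.2.2 = c.2.2 ∨ e.2.2 = c.2.2 + 1 ∨ (e.2.2 = c.2.2 + 2 ∧ e.2.1 < c.2.1)

theorem inv_moves {R C C' : Set (ℤ × ℤ × ℤ)} (h : Inv R C) (hC' : C' ∈ moves R C) : Inv R C' := by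
  obtain ⟨c0, hc0, a, d, hd, hca, hs, rfl⟩ := hC'
  refine ⟨Set.union_subset h.1 (hs.trans Set.sdiff_subset), ?_⟩
  rintro e (he | he) c ⟨hcR, hcC⟩ hb
  · exact h.2 e he c ⟨hcR, fun hc => hcC (Or.inl hc)⟩ hb
  · have hcQ : c ∈ R \ C := ⟨hcR, fun hc => hcC (Or.inl hc)⟩
    have hne : c ≠ c0 := by
      rintro rfl
      exact hcC (Or.inr hca)
    have h1 := hc0.2 c hcQ hne
    have h2 := bone_first hc0 hd hs hca
    have he' : ((e = c0 ∨ e = c0 + (-1, 1, 0) ∨ e = c0 + (-2, 2, 0)) ∨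
        (e = c0 ∨ e = c0 + (0, -1, 1) ∨ e = c0 + (0, -2, 2))) ∨
        (e = c0 ∨ e = c0 + (-1, 0, 1) ∨ e = c0 + (-2, 0, 2)) := by
      rcases h2 with (h2 | h2) | h2
      · rw [h2] at he; left; left; exact he
      · rw [h2] at he; left; right; exact he
      · rw [h2] at he; right; exact he
    obtain ⟨x0, y0, z0⟩ := c0
    obtain ⟨x, y, z⟩ := c
    obtain ⟨p, q, r⟩ := e
    unfold before at h1 hb
    simp only [Prod.mk_add_mk, Prod.mk.injEq] at he' h1 hb ⊢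
    omega

theorem inv_states {R C : Set (ℤ × ℤ × ℤ)} (h : C ∈ states R) : Inv R C := by
  have h' : Relation.ReflTransGen (fun A B => B ∈ moves R A) ∅ C := h
  clear h
  induction h' with
  | refl => exact ⟨Set.empty_subset _, fun e he => absurd he (Set.notMem_empty e)⟩
  | tail _ hbc ih => exact inv_moves ih hbc

/-- The cells after `c` which can be covered while `c` is the first uncovered cell. -/
def W (R : Set (ℤ × ℤ × ℤ)) (c : ℤ × ℤ × ℤ) : Set (ℤ × ℤ × ℤ) :=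
  {e | e ∈ R ∧ ((e.2.2 = c.2.2 ∧ c.2.1 < e.2.1) ∨ e.2.2 = c.2.2 + 1 ∨
    (e.2.2 = c.2.2 + 2 ∧ e.2.1 < c.2.1))}

theorem states_sub {R : Set (ℤ × ℤ × ℤ)} (hR : R.Finite) (hp : Plane R) :
    states R ⊆ {R} ∪ ⋃ c ∈ R, (fun D => {e | e ∈ R ∧ before e c} ∪ D) '' (W R c).powerset := by
  intro C hC
  have hI := inv_states hC
  by_cases hCR : C = R
  · left; exact hCR
  right
  have hQ : (R \ C).Finite := hR.subset Set.sdiff_subset
  have hQp : Plane (R \ C) := fun c hc => hp c hc.1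
  have hQne : (R \ C).Nonempty := by
    rw [Set.nonempty_iff_ne_empty]
    intro h
    exact hCR (Set.Subset.antisymm hI.1 (Set.sdiff_eq_empty.1 h))
  obtain ⟨c, hc⟩ := exists_first hQ hQp hQne
  simp only [Set.mem_iUnion, Set.mem_image, Set.mem_powerset_iff, exists_prop]
  refine ⟨c, hc.1.1, C ∩ W R c, Set.inter_subset_right, ?_⟩
  ext e
  simp only [Set.mem_union, Set.mem_ofPred_eq, Set.mem_inter_iff]
  constructor
  · rintro (⟨he, hb⟩ | ⟨he, -⟩)
    · by_contra heC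
      have hne : e ≠ c := by
        rintro rfl
        unfold before at hb; omega
      have := hc.2 e ⟨he, heC⟩ hne
      unfold before at hb this
      omega
    · exact he
  · intro he
    have heR := hI.1 he
    by_cases hb : before e c
    · left; exact ⟨heR, hb⟩
    · right
      refine ⟨he, heR, ?_⟩
      have hne : e ≠ c := by
        rintro rfl
        exact hc.1.2 he
      have hbc : before c e := by
        unfold before at hb ⊢
        have h1 := hp c hc.1.1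
        have h2 := hp e heR
        by_contra h3
        apply hne
        ext
        · omega
        · omega
        · omega
      have := hI.2 e he c hc.1 hbc
      unfold before at hbc
      omega

theorem states_card {R : Set (ℤ × ℤ × ℤ)} (hR : R.Finite) (hp : Plane R) (N : ℕ)
    (hN : ∀ c ∈ R, (W R c).ncard ≤ N) :
    (states R).Finite ∧ (states R).ncard ≤ R.ncard * 2 ^ N + 1 := by
  have hWf : ∀ c, (W R c).Finite := fun c => hR.subset (fun e he => he.1)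
  have hfin1 : (⋃ c ∈ R, (fun D => {e | e ∈ R ∧ before e c} ∪ D) '' (W R c).powerset).Finite :=
    hR.biUnion (fun c _ => (hWf c).powerset.image _)
  have hfin : (({R} : Set (Set (ℤ × ℤ × ℤ))) ∪
      ⋃ c ∈ R, (fun D => {e | e ∈ R ∧ before e c} ∪ D) '' (W R c).powerset).Finite :=
    (Set.finite_singleton R).union hfin1
  have hsub := states_sub hR hp
  refine ⟨hfin.subset hsub, (Set.ncard_le_ncard hsub hfin).trans ?_⟩
  refine (Set.ncard_union_le _ _).trans ?_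
  rw [Set.ncard_singleton, add_comm]
  refine Nat.add_le_add_right ?_ 1
  refine (Set.Finite.ncard_biUnion_le hR _).trans ?_
  rw [finsum_mem_eq_finite_toFinset_sum _ hR]
  have hle : ∀ c ∈ hR.toFinset, ((fun D => {e | e ∈ R ∧ before e c} ∪ D) ''
      (W R c).powerset).ncard ≤ 2 ^ N := by
    intro c hc
    rw [Set.Finite.mem_toFinset] at hc
    refine (Set.ncard_image_le (hWf c).powerset).trans ?_
    rw [Set.ncard_powerset _ (hWf c)]
    exact Nat.pow_le_pow_right (by norm_num) (hN c hc)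
  refine (Finset.sum_le_card_nsmul _ _ _ hle).trans ?_
  rw [Set.ncard_eq_toFinset_card R hR, smul_eq_mul]

theorem ncard_le_Icc {A : Set (ℤ × ℤ × ℤ)} (lo hi : ℤ) (h : ∀ e ∈ A, lo ≤ e.2.1 ∧ e.2.1 ≤ hi)
    (hinj : ∀ e ∈ A, ∀ e' ∈ A, e.2.1 = e'.2.1 → e = e') : A.ncard ≤ (hi + 1 - lo).toNat := by
  have : A.ncard ≤ (Finset.Icc lo hi : Set ℤ).ncard := by
    refine Set.ncard_le_ncard_of_injOn (fun e => e.2.1) ?_ ?_ (Finset.finite_toSet _)
    · intro e he
      rw [Finset.mem_coe, Finset.mem_Icc]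
      exact h e he
    · intro e he e' he' hee
      exact hinj e he e' he' hee
  rw [Set.ncard_coe_finset, Int.card_Icc] at this
  exact this

theorem W_card (a b : ℤ) (c : ℤ × ℤ × ℤ) (hc : c ∈ benzel a b) (hab : 0 ≤ a + b) :
    (W (benzel a b) c).ncard ≤ (a + b + 1).toNat := by
  have hU : W (benzel a b) c = {e | e ∈ W (benzel a b) c ∧ e.2.2 = c.2.2 + 1} ∪
      {e | e ∈ W (benzel a b) c ∧ e.2.2 ≠ c.2.2 + 1} := by
    ext e
    simp only [Set.mem_union, Set.mem_ofPred_eq]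
    tauto
  rw [hU]
  refine (Set.ncard_union_le _ _).trans ?_
  have h1 : {e | e ∈ W (benzel a b) c ∧ e.2.2 = c.2.2 + 1}.ncard ≤
      ((b - 1 - c.2.2) / 2 + 1 - -((a + c.2.2 - 1) / 2)).toNat := by
    apply ncard_le_Icc
    · rintro ⟨x, y, z⟩ ⟨⟨⟨hs, h1, h2, h3⟩, -⟩, hz⟩
      simp only at hs h1 h2 h3 hz ⊢
      omega
    · rintro ⟨x, y, z⟩ ⟨⟨⟨hs, -⟩, -⟩, hz⟩ ⟨x', y', z'⟩ ⟨⟨⟨hs', -⟩, -⟩, hz'⟩ hy
      simp only [Prod.mk.injEq] at hs hs' hz hz' hy ⊢
      omega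
  have h2 : {e | e ∈ W (benzel a b) c ∧ e.2.2 ≠ c.2.2 + 1}.ncard ≤
      ((b - c.2.2) / 2 + 1 - -((a + c.2.2) / 2)).toNat := by
    apply ncard_le_Icc
    · rintro ⟨x, y, z⟩ ⟨⟨⟨hs, u1, u2, u3⟩, hW⟩, hz⟩
      obtain ⟨x0, y0, z0⟩ := c
      obtain ⟨gs, g1, g2, g3⟩ := hc
      simp only [ne_eq] at hs u1 u2 u3 hz hW gs g1 g2 g3
      show -((a + z0) / 2) ≤ y ∧ y ≤ (b - z0) / 2
      rcases hW with hW | hW | hW
      · constructor <;> omega
      · omega
      · constructor <;> omega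
    · rintro ⟨x, y, z⟩ ⟨⟨⟨hs, -⟩, hW⟩, hz⟩ ⟨x', y', z'⟩ ⟨⟨⟨hs', -⟩, hW'⟩, hz'⟩ hy
      obtain ⟨x0, y0, z0⟩ := c
      simp only [Prod.mk.injEq, ne_eq] at hs hs' hz hz' hy hW hW' ⊢
      omega
  omega

end Pool.Agent.BonT
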