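import Pool.Agent.BonT.Cnt

/-!
# Bone tilings: regions in the coordinates `(z, y)`, lines, rotations
-/

set_option autoImplicit false

namespace Pool.Agent.BonT

/-- A region all of whose cells are on lines in direction `u`, cut into threes by `f`. -/
theorem line_tiling {R : Set (ℤ × ℤ × ℤ)} (u : ℤ × ℤ × ℤ) (hu : u ∈ dirs ∨ -u ∈ dirs)
    (f : ℤ × ℤ × ℤ → ℤ) (hf : ∀ c, f (c + u) = f c + 1)
    (h0 : ∀ c ∈ R, f c % 3 = 0 → c + u ∈ R ∧ c + u + u ∈ R)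
    (h1 : ∀ c ∈ R, f c % 3 = 1 → c - u ∈ R)
    (h2 : ∀ c ∈ R, f c % 3 = 2 → c - u - u ∈ R) : ∃ T, IsTiling R T := by
  refine ⟨{s | ∃ c ∈ R, f c % 3 = 0 ∧ s = {c, c + u, c + u + u}}, ?_, ?_, ?_⟩
  · rintro s ⟨c, -, -, rfl⟩
    rcases hu with hu | hu
    · exact ⟨c, u, hu, rfl⟩
    · refine ⟨c + u + u, -u, hu, ?_⟩
      have e1 : c + u + u + -u = c + u := by abel
      have e2 : c + u + u + -u + -u = c := by abel
      rw [bone, e2, e1]
      ext x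
      simp only [Set.mem_insert_iff, Set.mem_singleton_iff]
      tauto
  · rintro _ ⟨c, hc, hc0, rfl⟩ _ ⟨c', hc', hc0', rfl⟩ hne
    have hcc : c ≠ c' := by
      rintro rfl; exact hne rfl
    simp only [Function.onFun, id]
    rw [Set.disjoint_left]
    intro x hx hx'
    simp only [Set.mem_insert_iff, Set.mem_singleton_iff] at hx hx'
    have ha : ∀ c : ℤ × ℤ × ℤ, f (c + u + u) = f c + 2 := by
      intro c; rw [hf, hf]; ring
    have hb := hf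
    rcases hx with rfl | rfl | rfl <;> rcases hx' with h | h | h
    · exact hcc h
    · rw [h, hf] at hc0; omega
    · rw [h, ha] at hc0; omega
    · have := hb c; rw [h] at this; omega
    · exact hcc (add_right_cancel h)
    · have h' : c = c' + u := by
        have := congrArg (fun y => y - u) h
        simpa using this
      rw [h', hf] at hc0; omega
    · have := ha c; rw [h] at this; omega
    · have h' : c + u = c' := by
        have := congrArg (fun y => y - u) h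
        simpa using this
      rw [← h', hf] at hc0'; omega
    · exact hcc (add_right_cancel (add_right_cancel h))
  · ext x
    constructor
    · rintro ⟨s, ⟨c, hc, hc0, rfl⟩, hx⟩
      simp only [Set.mem_insert_iff, Set.mem_singleton_iff] at hx
      rcases hx with rfl | rfl | rfl
      · exact hc
      · exact (h0 c hc hc0).1
      · exact (h0 c hc hc0).2
    · intro hx
      have h3 : f x % 3 = 0 ∨ f x % 3 = 1 ∨ f x % 3 = 2 := by omega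
      rcases h3 with h3 | h3 | h3
      · exact ⟨_, ⟨x, hx, h3, rfl⟩, by simp⟩
      · refine ⟨_, ⟨x - u, h1 x hx h3, ?_, rfl⟩, ?_⟩
        · have := hf (x - u)
          rw [sub_add_cancel] at this
          omega
        · simp
      · refine ⟨_, ⟨x - u - u, h2 x hx h3, ?_, rfl⟩, ?_⟩
        · have := hf (x - u)
          rw [sub_add_cancel] at this
          have h' := hf (x - u - u)
          rw [sub_add_cancel] at h'
          omega
        · simp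

/-- The cells whose coordinates `z, y` satisfy `φ`. -/
def reg (φ : ℤ → ℤ → Prop) : Set (ℤ × ℤ × ℤ) :=
  {c | c.1 + c.2.1 + c.2.2 = 1 ∧ φ c.2.2 c.2.1}

/-- The rotated region. -/
def reg1 (φ : ℤ → ℤ → Prop) : Set (ℤ × ℤ × ℤ) :=
  {c | c.1 + c.2.1 + c.2.2 = 1 ∧ φ c.1 c.2.2}

/-- The region rotated twice. -/
def reg2 (φ : ℤ → ℤ → Prop) : Set (ℤ × ℤ × ℤ) :=
  {c | c.1 + c.2.1 + c.2.2 = 1 ∧ φ c.2.1 c.1}

theorem mem_reg {φ : ℤ → ℤ → Prop} {x y z : ℤ} :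
    (x, y, z) ∈ reg φ ↔ x + y + z = 1 ∧ φ z y := Iff.rfl

theorem mem_reg1 {φ : ℤ → ℤ → Prop} {x y z : ℤ} :
    (x, y, z) ∈ reg1 φ ↔ x + y + z = 1 ∧ φ x z := Iff.rfl

theorem mem_reg2 {φ : ℤ → ℤ → Prop} {x y z : ℤ} :
    (x, y, z) ∈ reg2 φ ↔ x + y + z = 1 ∧ φ y x := Iff.rfl

theorem reg_finite {φ : ℤ → ℤ → Prop} (M : ℤ)
    (h : ∀ z y, φ z y → (-M ≤ z ∧ z ≤ M) ∧ (-M ≤ y ∧ y ≤ M)) : (reg φ).Finite := by
  refine (((Set.finite_Icc (-M) M).prod (Set.finite_Icc (-M) M)).image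
    (fun p : ℤ × ℤ => (1 - p.1 - p.2, p.1, p.2))).subset ?_
  rintro ⟨x, y, z⟩ ⟨hs, hφ⟩
  simp only at hs hφ
  obtain ⟨h1, h2⟩ := h z y hφ
  refine ⟨(y, z), ⟨⟨h2.1, h2.2⟩, ⟨h1.1, h1.2⟩⟩, ?_⟩
  ext <;> simp
  omega

theorem col_tiling {φ : ℤ → ℤ → Prop} (lo : ℤ → ℤ)
    (h0 : ∀ z y, φ z y → (y - lo z) % 3 = 0 → φ z (y + 1) ∧ φ z (y + 2))
    (h1 : ∀ z y, φ z y → (y - lo z) % 3 = 1 → φ z (y - 1))
    (h2 : ∀ z y, φ z y → (y - lo z) % 3 = 2 → φ z (y - 2)) : ∃ T, IsTiling (reg φ) T := by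
  refine line_tiling (-1, 1, 0) (Or.inr ?_) (fun c => c.2.1 - lo c.2.2) ?_ ?_ ?_ ?_
  · simp [dirs]
  · rintro ⟨x, y, z⟩; simp; ring
  · rintro ⟨x, y, z⟩ ⟨hs, hφ⟩ hm
    simp only at hs hφ hm
    obtain ⟨a, b⟩ := h0 z y hφ hm
    refine ⟨⟨?_, ?_⟩, ⟨?_, ?_⟩⟩
    · simp; omega
    · simpa using a
    · simp; omega
    · simp only [Prod.mk_add_mk, add_zero]
      rw [show y + 1 + 1 = y + 2 by ring]; exact b
  · rintro ⟨x, y, z⟩ ⟨hs, hφ⟩ hm
    simp only at hs hφ hm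
    refine ⟨?_, ?_⟩
    · simp; omega
    · simpa using h1 z y hφ hm
  · rintro ⟨x, y, z⟩ ⟨hs, hφ⟩ hm
    simp only at hs hφ hm
    refine ⟨?_, ?_⟩
    · simp; omega
    · simp only [Prod.mk_sub_mk, sub_zero]
      rw [show y - 1 - 1 = y - 2 by ring]; exact h2 z y hφ hm

theorem row_tiling {φ : ℤ → ℤ → Prop} (lo : ℤ → ℤ)
    (h0 : ∀ z y, φ z y → (z - lo y) % 3 = 0 → φ (z + 1) y ∧ φ (z + 2) y)
    (h1 : ∀ z y, φ z y → (z - lo y) % 3 = 1 → φ (z - 1) y)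
    (h2 : ∀ z y, φ z y → (z - lo y) % 3 = 2 → φ (z - 2) y) : ∃ T, IsTiling (reg φ) T := by
  refine line_tiling (-1, 0, 1) (Or.inl ?_) (fun c => c.2.2 - lo c.2.1) ?_ ?_ ?_ ?_
  · simp [dirs]
  · rintro ⟨x, y, z⟩; simp; ring
  · rintro ⟨x, y, z⟩ ⟨hs, hφ⟩ hm
    simp only at hs hφ hm
    obtain ⟨a, b⟩ := h0 z y hφ hm
    refine ⟨⟨?_, ?_⟩, ⟨?_, ?_⟩⟩
    · simp; omega
    · simpa using a
    · simp; omega
    · simp only [Prod.mk_add_mk, add_zero]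
      rw [show z + 1 + 1 = z + 2 by ring]; exact b
  · rintro ⟨x, y, z⟩ ⟨hs, hφ⟩ hm
    simp only at hs hφ hm
    refine ⟨?_, ?_⟩
    · simp; omega
    · simpa using h1 z y hφ hm
  · rintro ⟨x, y, z⟩ ⟨hs, hφ⟩ hm
    simp only at hs hφ hm
    refine ⟨?_, ?_⟩
    · simp; omega
    · simp only [Prod.mk_sub_mk, sub_zero]
      rw [show z - 1 - 1 = z - 2 by ring]; exact h2 z y hφ hm

theorem diag_tiling {φ : ℤ → ℤ → Prop} (lo : ℤ → ℤ)
    (h0 : ∀ z y, φ z y → (z - lo (y + z)) % 3 = 0 → φ (z + 1) (y - 1) ∧ φ (z + 2) (y - 2))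
    (h1 : ∀ z y, φ z y → (z - lo (y + z)) % 3 = 1 → φ (z - 1) (y + 1))
    (h2 : ∀ z y, φ z y → (z - lo (y + z)) % 3 = 2 → φ (z - 2) (y + 2)) :
    ∃ T, IsTiling (reg φ) T := by
  refine line_tiling (0, -1, 1) (Or.inr ?_) (fun c => c.2.2 - lo (c.2.1 + c.2.2)) ?_ ?_ ?_ ?_
  · simp [dirs]
  · rintro ⟨x, y, z⟩
    simp only [Prod.mk_add_mk]
    rw [show y + -1 + (z + 1) = y + z by ring]; ring
  · rintro ⟨x, y, z⟩ ⟨hs, hφ⟩ hm
    simp only at hs hφ hm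
    obtain ⟨a, b⟩ := h0 z y hφ hm
    refine ⟨⟨?_, ?_⟩, ⟨?_, ?_⟩⟩
    · simp; omega
    · simpa [sub_eq_add_neg] using a
    · simp; omega
    · simp only [Prod.mk_add_mk]
      rw [show z + 1 + 1 = z + 2 by ring, show y + -1 + -1 = y - 2 by ring]; exact b
  · rintro ⟨x, y, z⟩ ⟨hs, hφ⟩ hm
    simp only at hs hφ hm
    refine ⟨?_, ?_⟩
    · simp; omega
    · simp only [Prod.mk_sub_mk]
      rw [show y - -1 = y + 1 by ring]; exact h1 z y hφ hm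
  · rintro ⟨x, y, z⟩ ⟨hs, hφ⟩ hm
    simp only at hs hφ hm
    refine ⟨?_, ?_⟩
    · simp; omega
    · simp only [Prod.mk_sub_mk]
      rw [show z - 1 - 1 = z - 2 by ring, show y - -1 - -1 = y + 2 by ring]; exact h2 z y hφ hm

/-- Rotation `(x, y, z) ↦ (z, x, y)`. -/
def rotf (c : ℤ × ℤ × ℤ) : ℤ × ℤ × ℤ := (c.2.2, c.1, c.2.1)

theorem rotf_injective : Function.Injective rotf := by
  rintro ⟨x, y, z⟩ ⟨x', y', z'⟩ h
  simp only [rotf, Prod.mk.injEq] at h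
  ext <;> simp <;> tauto

theorem rotf_bone (c d : ℤ × ℤ × ℤ) : rotf '' bone c d = bone (rotf c) (rotf d) := by
  unfold bone
  rw [Set.image_insert_eq, Set.image_pair]
  rfl

theorem rotf_dirs {d : ℤ × ℤ × ℤ} (hd : d ∈ dirs) : rotf d ∈ dirs := by
  simp only [dirs, Set.mem_insert_iff, Set.mem_singleton_iff] at hd ⊢
  rcases hd with rfl | rfl | rfl <;> simp [rotf]

theorem rotf_reg (φ : ℤ → ℤ → Prop) : rotf '' reg φ = reg1 φ := by
  ext ⟨x, y, z⟩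
  constructor
  · rintro ⟨⟨a, b, c⟩, ⟨h1, h2⟩, h3⟩
    simp only [rotf, Prod.mk.injEq] at h3 h1 h2
    obtain ⟨rfl, rfl, rfl⟩ := h3
    exact ⟨by simp; omega, h2⟩
  · rintro ⟨h1, h2⟩
    simp only at h1 h2
    exact ⟨(y, z, x), ⟨by simp; omega, h2⟩, rfl⟩

theorem rotf_reg1 (φ : ℤ → ℤ → Prop) : rotf '' reg1 φ = reg2 φ := by
  ext ⟨x, y, z⟩
  constructor
  · rintro ⟨⟨a, b, c⟩, ⟨h1, h2⟩, h3⟩
    simp only [rotf, Prod.mk.injEq] at h3 h1 h2
    obtain ⟨rfl, rfl, rfl⟩ := h3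
    exact ⟨by simp; omega, h2⟩
  · rintro ⟨h1, h2⟩
    simp only at h1 h2
    exact ⟨(y, z, x), ⟨by simp; omega, h2⟩, rfl⟩

theorem AtLeast.rot {R : Set (ℤ × ℤ × ℤ)} {m : ℕ} (h : AtLeast R m) : AtLeast (rotf '' R) m :=
  ⟨h.1.image _, h.2.trans (cnt_image rotf_injective
    (fun c d hd => ⟨rotf c, rotf d, rotf_dirs hd, rotf_bone c d⟩) h.1)⟩

theorem AtLeast.reg1 {φ : ℤ → ℤ → Prop} {m : ℕ} (h : AtLeast (reg φ) m) : AtLeast (reg1 φ) m := by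
  rw [← rotf_reg]; exact h.rot

theorem AtLeast.reg2 {φ : ℤ → ℤ → Prop} {m : ℕ} (h : AtLeast (reg φ) m) : AtLeast (reg2 φ) m := by
  rw [← rotf_reg1]; exact h.reg1.rot

/-- Translations. -/
theorem AtLeast.trans {R : Set (ℤ × ℤ × ℤ)} {m : ℕ} (h : AtLeast R m) (t : ℤ × ℤ × ℤ) :
    AtLeast ((fun c => c + t) '' R) m := by
  refine ⟨h.1.image _, h.2.trans (cnt_image (add_left_injective t) ?_ h.1)⟩
  intro c d hd
  refine ⟨c + t, d, hd, ?_⟩
  unfold bone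
  rw [Set.image_insert_eq, Set.image_pair]
  have e1 : c + d + t = c + t + d := by abel
  have e2 : c + d + d + t = c + t + d + d := by abel
  rw [e1, e2]

end Pool.Agent.BonT
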