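import Pool.Agent.BonT.Reg

/-!
# Bone tilings: the ring between `V(n,w)` and `V(n+3w+6,w+3)`
-/

set_option autoImplicit false

namespace Pool.Agent.BonT

/-- The triangle `x, y, z ≤ n` with three small triangles of side `w` attached at its corners. -/
def Vp (n w x y z : ℤ) : Prop :=
  (x ≤ n ∧ y ≤ n ∧ z ≤ n) ∨ (n + 1 ≤ y ∧ z ≤ n ∧ -w ≤ z - y) ∨
    (n + 1 ≤ z ∧ x ≤ n ∧ -w ≤ x - z) ∨ (n + 1 ≤ x ∧ y ≤ n ∧ -w ≤ y - x)

/-- The region of `Vp`. -/
def V (n w : ℤ) : Set (ℤ × ℤ × ℤ) := {c | c.1 + c.2.1 + c.2.2 = 1 ∧ Vp n w c.1 c.2.1 c.2.2}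

theorem mem_V {n w x y z : ℤ} : (x, y, z) ∈ V n w ↔ x + y + z = 1 ∧ Vp n w x y z := Iff.rfl

theorem Vp_rot {n w x y z : ℤ} (h : Vp n w x y z) : Vp n w y z x := by
  rcases h with h | h | h | h
  · exact Or.inl ⟨h.2.1, h.2.2, h.1⟩
  · exact Or.inr (Or.inr (Or.inr h))
  · exact Or.inr (Or.inl h)
  · exact Or.inr (Or.inr (Or.inl h))

/-- One third of the ring: the part left of the line `z = n + 1`. -/
def phiT (n w z y : ℤ) : Prop :=
  z ≤ n ∧ n + 1 ≤ y ∧ z + w < y ∧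
    ((y ≤ n + 3 * w + 5 ∧ n - w ≤ z) ∨ (y = n + 3 * w + 6 ∧ n - w - 2 ≤ z))

/-- One third of the ring: the part right of the line `z = n + 1`. -/
def phiR (n w z y : ℤ) : Prop :=
  n + 1 ≤ z ∧ z ≤ n + 3 * w + 6 ∧ (y ≤ n + 3 * w + 6 ∨ y ≤ z + w + 3) ∧
    ((z ≤ n + 3 * w + 5 ∧ w - n + 2 ≤ y + z) ∨ (z = n + 3 * w + 6 ∧ w - n + 4 ≤ y + z))

/-- One third of the ring. -/
def phiS (n w z y : ℤ) : Prop := phiT n w z y ∨ phiR n w z y

theorem ring_sub {n w x y z : ℤ} (hs : x + y + z = 1) (hn : 1 ≤ n) (hw : 0 ≤ w)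
    (h : phiS n w z y) : Vp (n + 3 * w + 6) (w + 3) x y z := by
  unfold Vp
  rcases h with ⟨h1, h2, h3, h4 | h4⟩ | ⟨h1, h2, h3 | h3, h4 | h4⟩
  · left; omega
  · left; omega
  · by_cases hx : x ≤ n + 3 * w + 6
    · left; omega
    · exfalso; omega
  · left; omega
  · by_cases hy : y ≤ n + 3 * w + 6
    · left; omega
    · right; left; omega
  · by_cases hy : y ≤ n + 3 * w + 6
    · left; omega
    · right; left; omega

/-- Cells of the new region with `z ≥ n + 1`. -/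
theorem ring_sup_z {n w x y z : ℤ} (hs : x + y + z = 1) (hn : 1 ≤ n) (hw : 0 ≤ w) (hwn : w ≤ 3 * n)
    (hz : n + 1 ≤ z) (h : Vp (n + 3 * w + 6) (w + 3) x y z) :
    Vp n w x y z ∨ phiS n w z y ∨ phiS n w x z := by
  by_cases h1 : x ≤ n - w - 1 ∧ (z ≤ n + 3 * w + 5 ∨ x ≤ n - w - 3)
  · right; left; right
    rcases h with h | h | h | h
    · refine ⟨hz, by omega, by omega, ?_⟩
      by_cases h5 : z ≤ n + 3 * w + 5
      · left; omega
      · right; omega
    · refine ⟨hz, by omega, by omega, ?_⟩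
      by_cases h5 : z ≤ n + 3 * w + 5
      · left; omega
      · right; omega
    · exfalso; omega
    · exfalso; omega
  · by_cases h2 : x ≤ n
    · by_cases h3 : -w ≤ x - z
      · left; right; right; left; omega
      · right; right; left
        refine ⟨h2, hz, by omega, ?_⟩
        rcases h with h | h | h | h
        · by_cases h5 : z ≤ n + 3 * w + 5
          · left; omega
          · right; omega
        · exfalso; omega
        · exfalso; omega
        · exfalso; omega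
    · right; right; right
      refine ⟨by omega, ?_, ?_, ?_⟩
      · rcases h with h | h | h | h <;> omega
      · rcases h with h | h | h | h <;> omega
      · by_cases h5 : x ≤ n + 3 * w + 5
        · left; omega
        · right
          rcases h with h | h | h | h <;> omega

theorem ring_sup {n w x y z : ℤ} (hs : x + y + z = 1) (hn : 1 ≤ n) (hw : 0 ≤ w) (hwn : w ≤ 3 * n)
    (h : Vp (n + 3 * w + 6) (w + 3) x y z) :
    Vp n w x y z ∨ phiS n w z y ∨ phiS n w x z ∨ phiS n w y x := by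
  by_cases hz : n + 1 ≤ z
  · have := ring_sup_z hs hn hw hwn hz h
    tauto
  by_cases hx : n + 1 ≤ x
  · have := ring_sup_z (x := y) (y := z) (z := x) (by omega) hn hw hwn hx (Vp_rot h)
    rcases this with h' | h' | h'
    · exact Or.inl (Vp_rot (Vp_rot h'))
    · tauto
    · tauto
  by_cases hy : n + 1 ≤ y
  · have := ring_sup_z (x := z) (y := x) (z := y) (by omega) hn hw hwn hy (Vp_rot (Vp_rot h))
    rcases this with h' | h' | h'
    · exact Or.inl (Vp_rot h')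
    · tauto
    · tauto
  · exact Or.inl (Or.inl ⟨by omega, by omega, by omega⟩)

theorem phiS_not_Vp {n w x y z : ℤ} (hs : x + y + z = 1) (hn : 1 ≤ n) (hw : 0 ≤ w)
    (hwn : w ≤ 3 * n) (h : phiS n w z y) : ¬ Vp n w x y z := by
  intro g
  rcases h with ⟨h1, h2, h3, h4 | h4⟩ | ⟨h1, h2, h3, h4 | h4⟩ <;>
  rcases g with g | g | g | g <;> omega

theorem phiS_not_rot {n w x y z : ℤ} (hs : x + y + z = 1) (hn : 1 ≤ n) (hw : 0 ≤ w)
    (hwn : w ≤ 3 * n) (h : phiS n w z y) : ¬ phiS n w x z := by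
  intro g
  rcases h with ⟨h1, h2, h3, h4 | h4⟩ | ⟨h1, h2, h3, h4 | h4⟩ <;>
  rcases g with ⟨g1, g2, g3, g4 | g4⟩ | ⟨g1, g2, g3, g4 | g4⟩ <;> omega

theorem ring_eq {n w : ℤ} (hn : 1 ≤ n) (hw : 0 ≤ w) (hwn : w ≤ 3 * n) :
    V (n + 3 * w + 6) (w + 3) = V n w ∪ reg (phiS n w) ∪ reg1 (phiS n w) ∪ reg2 (phiS n w) := by
  ext ⟨x, y, z⟩
  simp only [Set.mem_union, mem_V, mem_reg, mem_reg1, mem_reg2]
  constructor
  · rintro ⟨hs, h⟩
    have := ring_sup hs hn hw hwn h
    tauto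
  · rintro (((⟨hs, h⟩ | ⟨hs, h⟩) | ⟨hs, h⟩) | ⟨hs, h⟩)
    · refine ⟨hs, ?_⟩
      rcases h with h | h | h | h
      · left; omega
      · by_cases hy : y ≤ n + 3 * w + 6
        · left; omega
        · right; left; omega
      · by_cases hy : z ≤ n + 3 * w + 6
        · left; omega
        · right; right; left; omega
      · by_cases hy : x ≤ n + 3 * w + 6
        · left; omega
        · right; right; right; omega
    · exact ⟨hs, ring_sub hs hn hw h⟩
    · have := ring_sub (x := y) (y := z) (z := x) (by omega) hn hw h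
      exact ⟨hs, Vp_rot (Vp_rot this)⟩
    · have := ring_sub (x := z) (y := x) (z := y) (by omega) hn hw h
      exact ⟨hs, Vp_rot this⟩

theorem ring_disj {n w : ℤ} (hn : 1 ≤ n) (hw : 0 ≤ w) (hwn : w ≤ 3 * n) :
    Disjoint (V n w) (reg (phiS n w)) ∧ Disjoint (V n w ∪ reg (phiS n w)) (reg1 (phiS n w)) ∧
      Disjoint (V n w ∪ reg (phiS n w) ∪ reg1 (phiS n w)) (reg2 (phiS n w)) := by
  refine ⟨?_, ?_, ?_⟩
  · rw [Set.disjoint_left]
    rintro ⟨x, y, z⟩ ⟨hs, h⟩ ⟨-, g⟩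
    exact phiS_not_Vp hs hn hw hwn g h
  · rw [Set.disjoint_left]
    rintro ⟨x, y, z⟩ (⟨hs, h⟩ | ⟨hs, h⟩) ⟨-, g⟩
    · simp only at hs h g
      exact phiS_not_Vp (x := y) (y := z) (z := x) (by omega) hn hw hwn g (Vp_rot h)
    · simp only at hs h g
      exact phiS_not_rot hs hn hw hwn h g
  · rw [Set.disjoint_left]
    rintro ⟨x, y, z⟩ ((⟨hs, h⟩ | ⟨hs, h⟩) | ⟨hs, h⟩) ⟨-, g⟩
    · simp only at hs h g
      exact phiS_not_Vp (x := z) (y := x) (z := y) (by omega) hn hw hwn g (Vp_rot (Vp_rot h))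
    · simp only at hs h g
      exact phiS_not_rot (x := z) (y := x) (z := y) (by omega) hn hw hwn g h
    · simp only at hs h g
      exact phiS_not_rot (x := y) (y := z) (z := x) (by omega) hn hw hwn h g

end Pool.Agent.BonT
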