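import Pool.Agent.BonT.Lower

/-!
# Bone tilings: the size of the benzel
-/

set_option autoImplicit false

namespace Pool.Agent.BonT

/-- `R` is finite with `s` elements. -/
def Sz (R : Set (ℤ × ℤ × ℤ)) (s : ℕ) : Prop := R.Finite ∧ R.ncard = s

theorem Sz.union {R S : Set (ℤ × ℤ × ℤ)} {m n : ℕ} (h : Sz R m) (g : Sz S n)
    (hd : Disjoint R S) : Sz (R ∪ S) (m + n) :=
  ⟨h.1.union g.1, by rw [Set.ncard_union_eq hd h.1 g.1, h.2, g.2]⟩

theorem Sz.rot {R : Set (ℤ × ℤ × ℤ)} {m : ℕ} (h : Sz R m) : Sz (rotf '' R) m :=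
  ⟨h.1.image _, by rw [Set.ncard_image_of_injective _ rotf_injective, h.2]⟩

theorem Sz.reg1 {φ : ℤ → ℤ → Prop} {m : ℕ} (h : Sz (reg φ) m) : Sz (reg1 φ) m := by
  rw [← rotf_reg]; exact h.rot

theorem Sz.reg2 {φ : ℤ → ℤ → Prop} {m : ℕ} (h : Sz (reg φ) m) : Sz (reg2 φ) m := by
  rw [← rotf_reg1]; exact h.reg1.rot

theorem Sz.empty : Sz ∅ 0 := ⟨Set.finite_empty, Set.ncard_empty _⟩

/-- One column. -/
theorem Sz.col (z0 lo : ℤ) (m : ℕ) : Sz (reg (fun z y => z = z0 ∧ lo ≤ y ∧ y < lo + m)) m := by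
  have e : reg (fun z y => z = z0 ∧ lo ≤ y ∧ y < lo + m) =
      (fun i : ℕ => (1 - (lo + i) - z0, lo + (i : ℤ), z0)) '' (Set.Iio m) := by
    ext ⟨x, y, z⟩
    constructor
    · rintro ⟨hs, hz, h1, h2⟩
      simp only at hs hz h1 h2
      refine ⟨(y - lo).toNat, ?_, ?_⟩
      · simp only [Set.mem_Iio]; omega
      · ext <;> simp <;> omega
    · rintro ⟨i, hi, he⟩
      simp only [Prod.mk.injEq, Set.mem_Iio] at he hi
      refine ⟨?_, ?_, ?_, ?_⟩ <;> simp only <;> omega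
  rw [e]
  refine ⟨(Set.finite_Iio m).image _, ?_⟩
  rw [Set.ncard_image_of_injective]
  · rw [Set.ncard_eq_toFinset_card']; simp
  · intro i j h
    simp only [Prod.mk.injEq] at h
    omega

/-- Several columns. -/
theorem Sz.cols (z0 : ℤ) (lo : ℤ → ℤ) (len : ℕ → ℕ) (m : ℕ) :
    Sz (reg (fun z y => z0 ≤ z ∧ z < z0 + m ∧ lo z ≤ y ∧ y < lo z + len (z - z0).toNat))
      (∑ i ∈ Finset.range m, len i) := by
  induction m with
  | zero =>
    have e : reg (fun z y => z0 ≤ z ∧ z < z0 + (0 : ℕ) ∧ lo z ≤ y ∧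
        y < lo z + len (z - z0).toNat) = ∅ := by
      ext ⟨x, y, z⟩
      simp only [mem_reg, Set.mem_empty_iff_false, iff_false]
      omega
    rw [e, Finset.sum_range_zero]
    exact Sz.empty
  | succ m ih =>
    have h := Sz.col (z0 + m) (lo (z0 + m)) (len m)
    have hd : Disjoint (reg (fun z y => z0 ≤ z ∧ z < z0 + m ∧ lo z ≤ y ∧
        y < lo z + len (z - z0).toNat))
        (reg (fun z y => z = z0 + m ∧ lo (z0 + m) ≤ y ∧ y < lo (z0 + m) + len m)) := by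
      rw [Set.disjoint_left]
      rintro ⟨x, y, z⟩ ⟨-, h1⟩ ⟨-, h2⟩
      simp only at h1 h2
      omega
    have h' := ih.union h hd
    rw [Finset.sum_range_succ]
    convert h' using 1
    ext ⟨x, y, z⟩
    simp only [Set.mem_union, mem_reg]
    push_cast
    constructor
    · rintro ⟨hs, h1, h2, h3, h4⟩
      by_cases hz : z = z0 + m
      · subst hz
        have e : (z0 + (m : ℤ) - z0).toNat = m := by omega
        rw [e] at h4
        exact Or.inr ⟨hs, rfl, h3, h4⟩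
      · exact Or.inl ⟨hs, h1, by omega, h3, h4⟩
    · rintro (⟨hs, h1, h2, h3, h4⟩ | ⟨hs, h1, h3, h4⟩)
      · exact ⟨hs, h1, by omega, h3, h4⟩
      · subst h1
        have e : (z0 + (m : ℤ) - z0).toNat = m := by omega
        refine ⟨hs, by omega, by omega, h3, ?_⟩
        rw [e]; exact h4

theorem three_Sz {A : Set (ℤ × ℤ × ℤ)} {P : ℤ → ℤ → ℤ → Prop} {φ : ℤ → ℤ → Prop}
    (hA : ∀ x y z, (x, y, z) ∈ A ↔ x + y + z = 1 ∧ P x y z)
    (hrot : ∀ x y z, P x y z → P y z x)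
    (h1 : ∀ x y z, x + y + z = 1 → φ z y → ¬ P x y z)
    (h2 : ∀ x y z, x + y + z = 1 → φ z y → ¬ φ x z) {m s : ℕ} (hm : Sz A m)
    (hφ : Sz (reg φ) s) : Sz (A ∪ reg φ ∪ reg1 φ ∪ reg2 φ) (m + 3 * s) := by
  obtain ⟨d1, d2, d3⟩ := three_disj hA hrot h1 h2
  have := ((hm.union hφ d1).union hφ.reg1 d2).union hφ.reg2 d3
  have e : m + s + s + s = m + 3 * s := by ring
  rwa [e] at this

theorem V_Sz (w : ℕ) : ∃ s, Sz (V (tri w) w) s ∧ 2 * s = 9 * tri w * (tri w + 1) := by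
  induction w with
  | zero =>
    refine ⟨0, ?_, by simp [tri]⟩
    have e : V ((tri 0 : ℕ) : ℤ) ((0 : ℕ) : ℤ) = ∅ := by
      ext ⟨x, y, z⟩
      simp only [mem_V, Set.mem_empty_iff_false, iff_false, tri]
      rintro ⟨hs, h | h | h | h⟩ <;> (push_cast at h; omega)
    rw [e]
    exact Sz.empty
  | succ w ih =>
    obtain ⟨s, hs, hs2⟩ := ih
    have h := Sz.cols (tri w + 1) (fun z => w + 2 - 2 * z) (fun i => 3 * (tri w + 1 + i)) (w + 1)
    have e : reg (pK (tri w) w) = reg (fun z y => ((tri w : ℕ) : ℤ) + 1 ≤ z ∧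
        z < ((tri w : ℕ) : ℤ) + 1 + (w + 1 : ℕ) ∧ (w : ℤ) + 2 - 2 * z ≤ y ∧
        y < (w : ℤ) + 2 - 2 * z + (3 * (tri w + 1 + (z - (tri w + 1)).toNat) : ℕ)) := by
      refine reg_congr ?_
      intro z y
      unfold pK
      push_cast
      constructor <;> intro h <;> omega
    rw [← e] at h
    have hn : (0 : ℤ) ≤ (tri w : ℕ) := by positivity
    have hw : (0 : ℤ) ≤ (w : ℕ) := by positivity
    have h3 := three_Sz (P := Vp (tri w) w) (A := V (tri w) w) (fun x y z => Iff.rfl)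
      (fun x y z h => Vp_rot h) (fun x y z hs h => pK_not_Vp hs hn hw h)
      (fun x y z hs h => pK_not_rot hs hn hw h) hs h
    rw [← kim_eq hn hw] at h3
    have e1 : ((tri w : ℕ) : ℤ) + (w : ℕ) + 1 = (tri (w + 1) : ℕ) := by
      simp only [tri]; push_cast; ring
    have e2 : ((w : ℕ) : ℤ) + 1 = ((w + 1 : ℕ) : ℤ) := by push_cast; ring
    rw [e1, e2] at h3
    refine ⟨_, h3, ?_⟩
    have hsum : 2 * ∑ i ∈ Finset.range (w + 1), 3 * (tri w + 1 + i) =
        3 * (w + 1) * (2 * tri w + w + 2) := by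
      rw [← Finset.mul_sum, Finset.sum_add_distrib, Finset.sum_const, Finset.card_range,
        smul_eq_mul]
      have := Finset.sum_range_id_mul_two (w + 1)
      rw [Nat.add_sub_cancel] at this
      nlinarith
    simp only [tri]
    nlinarith

theorem benzel_Sz (w : ℕ) : Sz (benzel (3 * tri w + w + 1) (3 * tri w + 2 * w + 2))
    (9 * tri w * tri (w + 1)) := by
  have hn : (0 : ℤ) ≤ (tri w : ℕ) := by positivity
  have hw : (0 : ℤ) ≤ (w : ℕ) := by positivity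
  have hwn : (w : ℤ) ≤ 3 * (tri w : ℕ) := by have := le_tri w; omega
  obtain ⟨s, hs, hs2⟩ := V_Sz w
  rw [benzel_eq hn hw hwn]
  have h1 := Sz.cols (tri w + 1) (fun z => w + 2 - 2 * z) (fun _ => 3 * tri w) (w + 1)
  have h2 := Sz.cols (tri w + w + 2) (fun z => z - 3 * tri w - 2 * w - 1)
    (fun i => 3 * (tri w - 1 - i)) (tri w - 1)
  have hd : Disjoint (reg (fun z y => ((tri w : ℕ) : ℤ) + 1 ≤ z ∧
        z < ((tri w : ℕ) : ℤ) + 1 + (w + 1 : ℕ) ∧ (w : ℤ) + 2 - 2 * z ≤ y ∧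
        y < (w : ℤ) + 2 - 2 * z + (3 * tri w : ℕ)))
      (reg (fun z y => ((tri w : ℕ) : ℤ) + w + 2 ≤ z ∧
        z < ((tri w : ℕ) : ℤ) + w + 2 + (tri w - 1 : ℕ) ∧
        z - 3 * ((tri w : ℕ) : ℤ) - 2 * w - 1 ≤ y ∧
        y < z - 3 * ((tri w : ℕ) : ℤ) - 2 * w - 1 +
          (3 * (tri w - 1 - (z - (tri w + w + 2)).toNat) : ℕ))) := by
    rw [Set.disjoint_left]
    rintro ⟨x, y, z⟩ ⟨-, h1⟩ ⟨-, h2⟩
    simp only at h1 h2
    omega
  have h := h1.union h2 hd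
  have e : reg (pO (tri w) w) = reg (fun z y => ((tri w : ℕ) : ℤ) + 1 ≤ z ∧
        z < ((tri w : ℕ) : ℤ) + 1 + (w + 1 : ℕ) ∧ (w : ℤ) + 2 - 2 * z ≤ y ∧
        y < (w : ℤ) + 2 - 2 * z + (3 * tri w : ℕ)) ∪
      reg (fun z y => ((tri w : ℕ) : ℤ) + w + 2 ≤ z ∧
        z < ((tri w : ℕ) : ℤ) + w + 2 + (tri w - 1 : ℕ) ∧
        z - 3 * ((tri w : ℕ) : ℤ) - 2 * w - 1 ≤ y ∧
        y < z - 3 * ((tri w : ℕ) : ℤ) - 2 * w - 1 +
          (3 * (tri w - 1 - (z - (tri w + w + 2)).toNat) : ℕ)) := by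
    rw [← reg_or]
    refine reg_congr ?_
    intro z y
    unfold pO
    constructor
    · rintro (h | h)
      · left; omega
      · right; omega
    · rintro (h | h)
      · left; omega
      · right; omega
  rw [← e] at h
  have h3 := three_Sz (P := Vp (tri w) w) (A := V (tri w) w) (fun x y z => Iff.rfl)
      (fun x y z h => Vp_rot h) (fun x y z hs h => pO_not_Vp hs hn hw h)
      (fun x y z hs h => pO_not_rot hs hn hw h) hs h
  refine ⟨h3.1, ?_⟩
  rw [h3.2]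
  have hsum : 2 * ∑ i ∈ Finset.range (tri w - 1), 3 * (tri w - 1 - i) =
      3 * tri w * (tri w - 1) := by
    have hr := Finset.sum_range_reflect (fun j => j + 1) (tri w - 1)
    have hc : ∑ i ∈ Finset.range (tri w - 1), 3 * (tri w - 1 - i) =
        3 * ∑ i ∈ Finset.range (tri w - 1), (i + 1) := by
      rw [← hr, Finset.mul_sum]
      refine Finset.sum_congr rfl ?_
      intro i hi
      rw [Finset.mem_range] at hi
      omega
    rw [hc, Finset.sum_add_distrib, Finset.sum_const, Finset.card_range, smul_eq_mul, mul_one]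
    have := Finset.sum_range_id_mul_two (tri w - 1)
    rcases Nat.eq_zero_or_pos (tri w) with h0 | h0
    · rw [h0]; rfl
    · obtain ⟨u, hu⟩ : ∃ u, tri w = u + 1 := ⟨tri w - 1, by omega⟩
      rw [hu, Nat.add_sub_cancel] at this ⊢
      rcases Nat.eq_zero_or_pos u with h1 | h1
      · rw [h1]; rfl
      · obtain ⟨v, rfl⟩ : ∃ v, u = v + 1 := ⟨u - 1, by omega⟩
        rw [Nat.add_sub_cancel] at this
        nlinarith
  rw [Finset.sum_const, Finset.card_range, smul_eq_mul]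
  have ht : tri (w + 1) = tri w + w + 1 := rfl
  rcases Nat.eq_zero_or_pos (tri w) with h0 | h0
  · rw [h0] at hs2 hsum ⊢
    simp at hsum ⊢
    omega
  · obtain ⟨u, hu⟩ : ∃ u, tri w = u + 1 := ⟨tri w - 1, by omega⟩
    rw [ht]
    rw [hu] at hs2 hsum ⊢
    rw [Nat.add_sub_cancel] at hsum ⊢
    nlinarith

end Pool.Agent.BonT
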