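import Pool.Agent.BonT.Third

/-!
# Bone tilings: parallelograms and strips of width three
-/

set_option autoImplicit false

namespace Pool.Agent.BonT

/-- Two incompatible bones covering a common cell. -/
theorem add_bone {R1 R2 : Set (ℤ × ℤ × ℤ)} {c d c' d' : ℤ × ℤ × ℤ} {m1 m2 : ℕ}
    (hd : d ∈ dirs) (hd' : d' ∈ dirs)
    (h1 : AtLeast R1 m1) (h2 : AtLeast R2 m2) (e : bone c d ∪ R1 = bone c' d' ∪ R2)
    (dA : Disjoint (bone c d) R1) (dB : Disjoint (bone c' d') R2)
    (hne : bone c d ≠ bone c' d') (hi : ¬ Disjoint (bone c d) (bone c' d')) :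
    AtLeast (bone c d ∪ R1) (m1 + m2) := by
  have hfin : ∀ c d : ℤ × ℤ × ℤ, (bone c d).Finite := by
    intro c d; unfold bone; exact Set.toFinite _
  have hone : ∀ c d : ℤ × ℤ × ℤ, d ∈ dirs → IsTiling (bone c d) {bone c d} := by
    intro c d hd
    refine ⟨?_, ?_, ?_⟩
    · intro s hs
      rw [Set.mem_singleton_iff] at hs
      exact ⟨c, d, hd, hs⟩
    · exact Set.pairwiseDisjoint_singleton _ _
    · simp
  have hA := hone c d hd
  have hB := hone c' d' hd'
  refine ⟨(hfin c d).union h1.1, ?_⟩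
  set S1 : Set (Set (Set (ℤ × ℤ × ℤ))) := (fun T => {bone c d} ∪ T) '' {T | IsTiling R1 T} with hS1
  set S2 : Set (Set (Set (ℤ × ℤ × ℤ))) := (fun T => {bone c' d'} ∪ T) '' {T | IsTiling R2 T}
    with hS2
  have f1 : S1 ⊆ {T | IsTiling (bone c d ∪ R1) T} := by
    rintro _ ⟨T, hT, rfl⟩
    exact hA.union hT dA
  have f2 : S2 ⊆ {T | IsTiling (bone c d ∪ R1) T} := by
    rintro _ ⟨T, hT, rfl⟩
    rw [e]
    exact hB.union hT dB
  have n1 : S1.ncard = cnt R1 := by
    rw [hS1, Set.InjOn.ncard_image]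
    · rfl
    · intro T hT T' hT' he
      simp only at he
      have e1 := IsTiling.filter_eq hT hA dA.symm
      have e2 := IsTiling.filter_eq hT' hA dA.symm
      rw [Set.union_comm] at e1 e2
      rw [← e1, ← e2, he]
  have n2 : S2.ncard = cnt R2 := by
    rw [hS2, Set.InjOn.ncard_image]
    · rfl
    · intro T hT T' hT' he
      simp only at he
      have e1 := IsTiling.filter_eq hT hB dB.symm
      have e2 := IsTiling.filter_eq hT' hB dB.symm
      rw [Set.union_comm] at e1 e2
      rw [← e1, ← e2, he]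
  have hdis : Disjoint S1 S2 := by
    rw [Set.disjoint_left]
    rintro U hU1 hU2
    have t1 := f1 hU1
    obtain ⟨T, hT, rfl⟩ := hU1
    obtain ⟨T', hT', he⟩ := hU2
    simp only at he
    have m1 : bone c d ∈ ({bone c d} ∪ T : Set (Set (ℤ × ℤ × ℤ))) := Or.inl rfl
    have m2 : bone c' d' ∈ ({bone c d} ∪ T : Set (Set (ℤ × ℤ × ℤ))) := by
      rw [← he]; exact Or.inl rfl
    exact hi (t1.2.1 m1 m2 hne)
  have hfinT := tilings_finite ((hfin c d).union h1.1)
  have hle : (S1 ∪ S2).ncard ≤ cnt (bone c d ∪ R1) :=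
    Set.ncard_le_ncard (Set.union_subset f1 f2) hfinT
  rw [Set.ncard_union_eq hdis (hfinT.subset f1) (hfinT.subset f2), n1, n2] at hle
  have := h1.2
  have := h2.2
  omega

/-- Parallelogram: `a` values of `z`, `b` values of `x`. -/
def pP (z0 x0 a b z y : ℤ) : Prop :=
  z0 ≤ z ∧ z < z0 + a ∧ x0 ≤ 1 - y - z ∧ 1 - y - z < x0 + b

theorem pP_bound (z0 x0 a b : ℤ) : ∃ M : ℤ, ∀ z y, pP z0 x0 a b z y →
    (-M ≤ z ∧ z ≤ M) ∧ (-M ≤ y ∧ y ≤ M) := by
  refine ⟨10 * |z0| + 10 * |x0| + 10 * |a| + 10 * |b| + 10, ?_⟩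
  intro z y h
  unfold pP at h
  have := abs_nonneg z0
  have := abs_nonneg x0
  have := abs_nonneg a
  have := abs_nonneg b
  have := le_abs_self z0
  have := neg_abs_le z0
  have := le_abs_self x0
  have := neg_abs_le x0
  have := le_abs_self a
  have := neg_abs_le a
  have := le_abs_self b
  have := neg_abs_le b
  omega

theorem pP_one_of_b (z0 x0 a : ℤ) (b : ℕ) : AtLeast (reg (pP z0 x0 a (3 * b))) 1 := by
  obtain ⟨M, hM⟩ := pP_bound z0 x0 a (3 * b)
  refine atLeast_of_tiling M hM ?_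
  refine col_tiling (fun z => 1 - z - x0 - 3 * b + 1) ?_ ?_ ?_ <;>
    · intro z y h hm; unfold pP at h ⊢; omega

theorem pP_one_of_a (z0 x0 b : ℤ) (a : ℕ) : AtLeast (reg (pP z0 x0 (3 * a) b)) 1 := by
  obtain ⟨M, hM⟩ := pP_bound z0 x0 (3 * a) b
  refine atLeast_of_tiling M hM ?_
  refine diag_tiling (fun _ => z0) ?_ ?_ ?_ <;>
    · intro z y h hm; unfold pP at h ⊢; omega

/-- The recursion for strips of width three. -/
def tt : ℕ → ℕ
  | 0 => 1
  | 1 => 1
  | 2 => 1
  | (n + 3) => tt (n + 2) + tt n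

theorem strip_atLeast (L : ℕ) : ∀ z0 x0 : ℤ, AtLeast (reg (pP z0 x0 3 L)) (tt L) := by
  induction L using Nat.strong_induction_on with
  | _ L ih =>
    intro z0 x0
    match L, ih with
    | 0, _ => exact pP_one_of_a z0 x0 _ 1
    | 1, _ => exact pP_one_of_a z0 x0 _ 1
    | 2, _ => exact pP_one_of_a z0 x0 _ 1
    | (n + 3), ih =>
      have h1 := ih (n + 2) (by omega) z0 (x0 + 1)
      have h2 := ih n (by omega) z0 (x0 + 3)
      have h3 : AtLeast (reg (pP (z0 + 1) x0 2 (3 * (1 : ℕ)))) 1 := pP_one_of_b _ _ _ 1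
      have h4 : AtLeast (reg (fun z y => pP (z0 + 1) x0 2 (3 * (1 : ℕ)) z y ∨
          pP z0 (x0 + 3) 3 n z y)) (1 * tt n) := by
        refine h3.or h2 ?_
        intro z y h g; unfold pP at h g; omega
      rw [one_mul] at h4
      have es : bone (x0, 1 - x0 - z0 - 2 , z0 + 2) (0, 1, -1) ∪ reg (pP z0 (x0 + 1) 3 (n + 2 : ℕ)) =
          reg (pP z0 x0 3 (n + 3 : ℕ)) := by
        ext ⟨x, y, z⟩
        simp only [Set.mem_union, mem_reg, bone, Set.mem_insert_iff, Set.mem_singleton_iff,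
          Prod.mk_add_mk, Prod.mk.injEq, pP]
        push_cast
        constructor
        · rintro ((h | h | h) | h) <;> omega
        · intro h
          by_cases hx : x = x0
          · left; omega
          · right; omega
      have et : bone (x0, 1 - x0 - z0, z0) (1, -1, 0) ∪ reg (fun z y =>
          pP (z0 + 1) x0 2 (3 * (1 : ℕ)) z y ∨ pP z0 (x0 + 3) 3 n z y) =
          reg (pP z0 x0 3 (n + 3 : ℕ)) := by
        ext ⟨x, y, z⟩
        simp only [Set.mem_union, mem_reg, bone, Set.mem_insert_iff, Set.mem_singleton_iff,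
          Prod.mk_add_mk, Prod.mk.injEq, pP]
        push_cast
        constructor
        · rintro ((h | h | h) | ⟨h, g | g⟩) <;> omega
        · intro h
          by_cases hx : x < x0 + 3
          · by_cases hz : z = z0
            · left; omega
            · right; omega
          · right; omega
      rw [← es]
      show AtLeast _ (tt (n + 2) + tt n)
      refine add_bone (by simp [dirs]) (by simp [dirs]) h1 h4 (es.trans et.symm) ?_ ?_ ?_ ?_
      · rw [Set.disjoint_left]
        rintro ⟨x, y, z⟩ h g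
        simp only [mem_reg, bone, Set.mem_insert_iff, Set.mem_singleton_iff,
          Prod.mk_add_mk, Prod.mk.injEq, pP] at h g
        omega
      · rw [Set.disjoint_left]
        rintro ⟨x, y, z⟩ h g
        simp only [mem_reg, bone, Set.mem_insert_iff, Set.mem_singleton_iff,
          Prod.mk_add_mk, Prod.mk.injEq, pP] at h g
        push_cast at g
        omega
      · intro he
        have hm : (x0 + 1, 1 - x0 - z0 - 1, z0) ∈ bone (x0, 1 - x0 - z0, z0) (1, -1, 0) := by
          refine Or.inr (Or.inl ?_)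
          ext <;> simp <;> ring
        rw [← he] at hm
        simp only [bone, Set.mem_insert_iff, Set.mem_singleton_iff,
          Prod.mk_add_mk, Prod.mk.injEq] at hm
        omega
      · rw [Set.not_disjoint_iff]
        refine ⟨(x0, 1 - x0 - z0, z0), Or.inr (Or.inr ?_), Or.inl rfl⟩
        show (x0, 1 - x0 - z0, z0) =
          (x0, 1 - x0 - z0 - 2, z0 + 2) + (0, 1, -1) + (0, 1, -1)
        simp only [Prod.mk_add_mk, Prod.mk.injEq]
        refine ⟨by ring, by ring, by ring⟩

theorem tt_bound (m : ℕ) : 2 * 3 ^ m ≤ tt (3 * m + 3) ∧ 3 * 3 ^ m ≤ tt (3 * m + 4) ∧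
    4 * 3 ^ m ≤ tt (3 * m + 5) := by
  induction m with
  | zero => decide
  | succ m ih =>
    obtain ⟨h1, h2, h3⟩ := ih
    have e1 : tt (3 * (m + 1) + 3) = tt (3 * m + 5) + tt (3 * m + 3) := by
      rw [show 3 * (m + 1) + 3 = 3 * m + 3 + 3 by ring]; rfl
    have e2 : tt (3 * (m + 1) + 4) = tt (3 * (m + 1) + 3) + tt (3 * m + 4) := by
      rw [show 3 * (m + 1) + 4 = 3 * m + 4 + 3 by ring,
        show 3 * (m + 1) + 3 = 3 * m + 4 + 2 by ring]; rfl
    have e3 : tt (3 * (m + 1) + 5) = tt (3 * (m + 1) + 4) + tt (3 * m + 5) := by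
      rw [show 3 * (m + 1) + 5 = 3 * m + 5 + 3 by ring,
        show 3 * (m + 1) + 4 = 3 * m + 5 + 2 by ring]; rfl
    have hp : 3 ^ (m + 1) = 3 * 3 ^ m := by ring
    rw [e3, e2, e1, hp]
    omega

theorem para_atLeast (z0 x0 : ℤ) (N : ℕ) (j : ℕ) :
    AtLeast (reg (pP z0 x0 (3 * j + 2) (3 * N))) (tt (3 * N) ^ j) := by
  induction j with
  | zero =>
    simpa using pP_one_of_b z0 x0 2 N
  | succ j ih =>
    have h := strip_atLeast (3 * N) (z0 + 3 * j + 2) x0
    have h' := ih.or h (by intro z y h g; unfold pP at h g; omega)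
    have e : reg (fun z y => pP z0 x0 (3 * j + 2) (3 * N) z y ∨
        pP (z0 + 3 * j + 2) x0 3 (3 * N : ℕ) z y) =
        reg (pP z0 x0 (3 * (j + 1 : ℕ) + 2) (3 * N)) := by
      refine reg_congr ?_
      intro z y
      unfold pP
      push_cast
      constructor
      · rintro (h | h) <;> omega
      · intro h
        by_cases hz : z < z0 + 3 * j + 2
        · left; omega
        · right; omega
    rw [e] at h'
    rw [pow_succ]
    exact h'

theorem pQ_atLeast (N W : ℕ) : AtLeast (reg (pQ N W)) (tt (3 * N) ^ (W + 1)) := by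
  have h := para_atLeast (N + 1) (-W - 2 * N) N (W + 1)
  have e : reg (pQ N W) = reg (pP (N + 1) (-W - 2 * N) (3 * (W + 1 : ℕ) + 2) (3 * N)) := by
    refine reg_congr ?_
    intro z y
    unfold pP pQ
    push_cast
    omega
  rw [e]
  exact h

end Pool.Agent.BonT
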