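import Pool.Agent.BonT.Pieces

/-!
# Bone tilings: one third of the ring, and the ring
-/

set_option autoImplicit false

namespace Pool.Agent.BonT

theorem third_atLeast {n w : ℤ} (hn : 1 ≤ n) (hw : 0 ≤ w) {m : ℕ}
    (h : AtLeast (reg (pQ n w)) m) : AtLeast (reg (phiS n w)) m := by
  have e : reg (phiS n w) = reg (fun z y => pQ n w z y ∨ (pB1 n w z y ∨ (pB2 n w z y ∨
      (pL n w z y ∨ (pR1 n w z y ∨ (pR2 n w z y ∨ (pG n w z y ∨ pC n w z y))))))) :=
    reg_congr (phiS_iff hn hw)
  rw [e]
  have h7 : AtLeast (reg (fun z y => pG n w z y ∨ pC n w z y)) (1 * 1) := by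
    refine (G_one hn hw).or (C_one hn hw) ?_
    intro z y h g; unfold pG at h; unfold pC at g; omega
  have h6 : AtLeast (reg (fun z y => pR2 n w z y ∨ (pG n w z y ∨ pC n w z y))) (1 * (1 * 1)) := by
    refine (R2_one hn hw).or h7 ?_
    rintro z y h (g | g)
    · unfold pR2 at h; unfold pG at g; omega
    · unfold pR2 at h; unfold pC at g; omega
  have h5 : AtLeast (reg (fun z y => pR1 n w z y ∨ (pR2 n w z y ∨ (pG n w z y ∨ pC n w z y))))
      (1 * (1 * (1 * 1))) := by
    refine (R1_one hn hw).or h6 ?_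
    rintro z y h (g | g | g)
    · unfold pR1 at h; unfold pR2 at g; omega
    · unfold pR1 at h; unfold pG at g; omega
    · unfold pR1 at h; unfold pC at g; omega
  have h4 : AtLeast (reg (fun z y => pL n w z y ∨ (pR1 n w z y ∨ (pR2 n w z y ∨
      (pG n w z y ∨ pC n w z y))))) (1 * (1 * (1 * (1 * 1)))) := by
    refine (L_one hn hw).or h5 ?_
    rintro z y h (g | g | g | g)
    · unfold pL at h; unfold pR1 at g; omega
    · unfold pL at h; unfold pR2 at g; omega
    · unfold pL at h; unfold pG at g; omega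
    · unfold pL at h; unfold pC at g; omega
  have h3 : AtLeast (reg (fun z y => pB2 n w z y ∨ (pL n w z y ∨ (pR1 n w z y ∨ (pR2 n w z y ∨
      (pG n w z y ∨ pC n w z y)))))) (1 * (1 * (1 * (1 * (1 * 1))))) := by
    refine (B2_one hn hw).or h4 ?_
    rintro z y h (g | g | g | g | g)
    · unfold pB2 at h; unfold pL at g; omega
    · unfold pB2 at h; unfold pR1 at g; omega
    · unfold pB2 at h; unfold pR2 at g; omega
    · unfold pB2 at h; unfold pG at g; omega
    · unfold pB2 at h; unfold pC at g; omega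
  have h2 : AtLeast (reg (fun z y => pB1 n w z y ∨ (pB2 n w z y ∨ (pL n w z y ∨
      (pR1 n w z y ∨ (pR2 n w z y ∨ (pG n w z y ∨ pC n w z y)))))))
      (1 * (1 * (1 * (1 * (1 * (1 * 1)))))) := by
    refine (B1_one hn hw).or h3 ?_
    rintro z y h (g | g | g | g | g | g)
    · unfold pB1 at h; unfold pB2 at g; omega
    · unfold pB1 at h; unfold pL at g; omega
    · unfold pB1 at h; unfold pR1 at g; omega
    · unfold pB1 at h; unfold pR2 at g; omega
    · unfold pB1 at h; unfold pG at g; omega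
    · unfold pB1 at h; unfold pC at g; omega
  have h1 : AtLeast (reg (fun z y => pQ n w z y ∨ (pB1 n w z y ∨ (pB2 n w z y ∨ (pL n w z y ∨
      (pR1 n w z y ∨ (pR2 n w z y ∨ (pG n w z y ∨ pC n w z y))))))))
      (m * (1 * (1 * (1 * (1 * (1 * (1 * 1))))))) := by
    refine h.or h2 ?_
    rintro z y h (g | g | g | g | g | g | g)
    · unfold pQ at h; unfold pB1 at g; omega
    · unfold pQ at h; unfold pB2 at g; omega
    · unfold pQ at h; unfold pL at g; omega
    · unfold pQ at h; unfold pR1 at g; omega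
    · unfold pQ at h; unfold pR2 at g; omega
    · unfold pQ at h; unfold pG at g; omega
    · unfold pQ at h; unfold pC at g; omega
  simpa using h1

theorem ring_atLeast {n w : ℤ} (hn : 1 ≤ n) (hw : 0 ≤ w) (hwn : w ≤ 3 * n) {m q : ℕ}
    (h : AtLeast (V n w) m) (hq : AtLeast (reg (pQ n w)) q) :
    AtLeast (V (n + 3 * w + 6) (w + 3)) (m * q ^ 3) := by
  rw [ring_eq hn hw hwn]
  have h1 := third_atLeast hn hw hq
  obtain ⟨d1, d2, d3⟩ := ring_disj hn hw hwn
  have := ((h.union h1 d1).union h1.reg1 d2).union h1.reg2 d3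
  have e : m * q * q * q = m * q ^ 3 := by ring
  rwa [e] at this

end Pool.Agent.BonT
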