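import Pool.Agent.BonT.Cnt

/-!
# Bone tilings: the upper bound
-/

set_option autoImplicit false

namespace Pool.Agent.BonT

theorem bone_ncard (c d : ℤ × ℤ × ℤ) (hd : d ∈ dirs) : (bone c d).ncard = 3 := by
  obtain ⟨x, y, z⟩ := c
  simp only [dirs, Set.mem_insert_iff, Set.mem_singleton_iff] at hd
  rw [Set.ncard_eq_three]
  refine ⟨_, _, _, ?_, ?_, ?_, rfl⟩ <;>
  · rcases hd with rfl | rfl | rfl <;>
    · intro h
      simp only [Prod.mk_add_mk, Prod.mk.injEq] at h
      omega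

theorem ncard_with_bone {R b : Set (ℤ × ℤ × ℤ)} (hR : R.Finite) (hb : b.Nonempty) :
    {T | IsTiling R T ∧ b ∈ T}.ncard ≤ cnt (R \ b) := by
  unfold cnt
  refine Set.ncard_le_ncard_of_injOn (fun T => T \ {b}) ?_ ?_ (tilings_finite (hR.subset Set.sdiff_subset))
  · rintro T ⟨hT, hbT⟩
    refine ⟨?_, ?_, ?_⟩
    · rintro s ⟨hs, -⟩
      exact hT.1 s hs
    · exact hT.2.1.subset Set.sdiff_subset
    · ext x
      constructor
      · rintro ⟨s, ⟨hs, hsb⟩, hx⟩
        refine ⟨hT.sub hs hx, ?_⟩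
        intro hxb
        have := hT.2.1 hs hbT hsb
        exact Set.disjoint_left.1 this hx hxb
      · rintro ⟨hx, hxb⟩
        rw [← hT.2.2] at hx
        obtain ⟨s, hs, hxs⟩ := hx
        refine ⟨s, ⟨hs, ?_⟩, hxs⟩
        rintro rfl
        exact hxb hxs
  · rintro T ⟨-, hT⟩ T' ⟨-, hT'⟩ he
    simp only at he
    rw [← Set.sdiff_union_of_subset (Set.singleton_subset_iff.2 hT), he,
      Set.sdiff_union_of_subset (Set.singleton_subset_iff.2 hT')]

theorem exists_min {R : Set (ℤ × ℤ × ℤ)} (hR : R.Finite) (hne : R.Nonempty) :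
    ∃ c ∈ R, ∀ e ∈ R, c.1 ≤ e.1 ∧ (e.1 = c.1 → c.2.1 ≤ e.2.1) := by
  obtain ⟨c, hc, hmin⟩ := Set.exists_min_image R (fun c => toLex (c.1, c.2.1)) hR hne
  refine ⟨c, hc, fun e he => ?_⟩
  have := hmin e he
  rw [Prod.Lex.toLex_le_toLex] at this
  simp only at this
  rcases this with h | ⟨h, h'⟩
  · exact ⟨h.le, fun h' => absurd h' (by omega)⟩
  · exact ⟨h.le, fun _ => h'⟩

theorem bone_cover {R : Set (ℤ × ℤ × ℤ)} {c : ℤ × ℤ × ℤ}
    (hmin : ∀ e ∈ R, c.1 ≤ e.1 ∧ (e.1 = c.1 → c.2.1 ≤ e.2.1)) {c' d : ℤ × ℤ × ℤ}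
    (hd : d ∈ dirs) (hs : bone c' d ⊆ R) (hc : c ∈ bone c' d) :
    bone c' d = bone c (1, -1, 0) ∨ bone c' d = bone c (0, 1, -1) ∨
      bone c' d = bone (c + (1, 0, -1) + (1, 0, -1)) (-1, 0, 1) := by
  have m0 : c' ∈ R := hs (by simp [bone])
  have m1 : c' + d ∈ R := hs (by simp [bone])
  have m2 : c' + d + d ∈ R := hs (by simp [bone])
  have h0 := hmin _ m0
  have h1 := hmin _ m1
  have h2 := hmin _ m2
  obtain ⟨x, y, z⟩ := c
  obtain ⟨x', y', z'⟩ := c'
  simp only [dirs, Set.mem_insert_iff, Set.mem_singleton_iff] at hd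
  simp only [bone, Set.mem_insert_iff, Set.mem_singleton_iff] at hc
  rcases hd with rfl | rfl | rfl
  · left
    simp only [Prod.mk_add_mk, Prod.mk.injEq] at hc h0 h1 h2
    have : x' = x ∧ y' = y ∧ z' = z := by omega
    obtain ⟨rfl, rfl, rfl⟩ := this
    rfl
  · right; left
    simp only [Prod.mk_add_mk, Prod.mk.injEq] at hc h0 h1 h2
    have : x' = x ∧ y' = y ∧ z' = z := by omega
    obtain ⟨rfl, rfl, rfl⟩ := this
    rfl
  · right; right
    simp only [Prod.mk_add_mk, Prod.mk.injEq] at hc h0 h1 h2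
    have : x' = x + 1 + 1 ∧ y' = y + 0 + 0 ∧ z' = z + -1 + -1 := by omega
    obtain ⟨rfl, rfl, rfl⟩ := this
    rfl

theorem cnt_le_aux (N : ℕ) : ∀ R : Set (ℤ × ℤ × ℤ), R.Finite → R.ncard = N →
    cnt R ≤ 3 ^ (N / 3) := by
  induction N using Nat.strong_induction_on with
  | _ N ih =>
    intro R hR hN
    rcases R.eq_empty_or_nonempty with rfl | hne
    · have : {T | IsTiling ∅ T} ⊆ {∅} := by
        intro T hT
        rw [Set.mem_singleton_iff, Set.eq_empty_iff_forall_notMem]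
        intro s hs
        obtain ⟨x, hx⟩ := IsTiling.ne hT hs
        exact IsTiling.sub hT hs hx
      calc cnt ∅ ≤ ({∅} : Set (Set (Set (ℤ × ℤ × ℤ)))).ncard :=
            Set.ncard_le_ncard this (Set.finite_singleton _)
        _ = 1 := Set.ncard_singleton _
        _ ≤ 3 ^ (N / 3) := Nat.one_le_pow _ _ (by norm_num)
    · obtain ⟨c, hc, hmin⟩ := exists_min hR hne
      have key : ∀ c' : ℤ × ℤ × ℤ, ∀ d ∈ dirs,
          3 * {T | IsTiling R T ∧ bone c' d ∈ T}.ncard ≤ 3 ^ (N / 3) := by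
        intro c' d hd
        by_cases hs : bone c' d ⊆ R
        · have h3 := bone_ncard c' d hd
          have h1 := Set.ncard_sdiff_add_ncard_of_subset hs hR
          have h2 := ih (N - 3) (by omega) (R \ bone c' d) (hR.subset Set.sdiff_subset) (by omega)
          have h4 := ncard_with_bone (b := bone c' d) hR (bone_ne c' d)
          have h5 : N / 3 = (N - 3) / 3 + 1 := by omega
          rw [h5, pow_succ]
          omega
        · have : {T | IsTiling R T ∧ bone c' d ∈ T} = ∅ := by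
            rw [Set.eq_empty_iff_forall_notMem]
            rintro T ⟨hT, hb⟩
            exact hs (hT.sub hb)
          rw [this, Set.ncard_empty]
          positivity
      have k1 := key c (1, -1, 0) (by simp [dirs])
      have k2 := key c (0, 1, -1) (by simp [dirs])
      have k3 := key (c + (1, 0, -1) + (1, 0, -1)) (-1, 0, 1) (by simp [dirs])
      have hsub : {T | IsTiling R T} ⊆ {T | IsTiling R T ∧ bone c (1, -1, 0) ∈ T} ∪
          {T | IsTiling R T ∧ bone c (0, 1, -1) ∈ T} ∪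
          {T | IsTiling R T ∧ bone (c + (1, 0, -1) + (1, 0, -1)) (-1, 0, 1) ∈ T} := by
        intro T hT
        simp only [Set.mem_ofPred_eq] at hT
        have hc' := hc
        rw [← hT.2.2] at hc'
        obtain ⟨s, hs, hcs⟩ := hc'
        obtain ⟨c', d, hd, rfl⟩ := hT.1 s hs
        rcases bone_cover hmin hd (hT.sub hs) hcs with h | h | h
        · left; left; exact ⟨hT, h ▸ hs⟩
        · left; right; exact ⟨hT, h ▸ hs⟩
        · right; exact ⟨hT, h ▸ hs⟩
      have hfin : ∀ b : Set (ℤ × ℤ × ℤ), {T | IsTiling R T ∧ b ∈ T}.Finite := fun b =>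
        (tilings_finite hR).subset (fun T hT => hT.1)
      have h1 : cnt R ≤ _ := Set.ncard_le_ncard hsub (((hfin _).union (hfin _)).union (hfin _))
      have h2 := h1.trans (Set.ncard_union_le _ _)
      have h3 := Set.ncard_union_le {T | IsTiling R T ∧ bone c (1, -1, 0) ∈ T}
        {T | IsTiling R T ∧ bone c (0, 1, -1) ∈ T}
      omega

/-- A finite region has at most `3 ^ (number of bones)` tilings. -/
theorem cnt_le {R : Set (ℤ × ℤ × ℤ)} (hR : R.Finite) : cnt R ≤ 3 ^ (R.ncard / 3) :=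
  cnt_le_aux _ R hR rfl

end Pool.Agent.BonT
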